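import Pool.Agent.Helper65.LGI.Sec
import Pool.Agent.Helper6.LGS.Surj

/-!
# The partition of the lattice of normal subgroups into intervals
-/

set_option autoImplicit false

namespace Pool.Agent.Helper72.LGI

open Subgroup Finset Pool.Agent.Helper72.LG Pool.Agent.Helper72.LGS
open scoped commutatorElement

/-- a chief factor without a series of factors of prime order or of order at most `M` -/
structure BadCh {G : Type*} [Group G] (M : ℕ) (A B : Subgroup G) : Prop where
  normal_top : A.Normal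
  normal_bot : B.Normal
  lt : B < A
  chief : ∀ N : Subgroup G, N.Normal → B ≤ N → N ≤ A → N = B ∨ N = A
  bad : ¬ Chain M B A

/-- at most `ρ` bad chief factors in a chain between `L` and `C` -/
def Few {G : Type*} [Group G] (M ρ : ℕ) (L C : Subgroup G) : Prop :=
  ∀ (t : ℕ) (A B : ℕ → Subgroup G), (∀ i < t, BadCh M (A i) (B i)) →
    (∀ i < t, L ≤ B i ∧ A i ≤ C) → (∀ i, i + 1 < t → A i ≤ B (i + 1)) → t ≤ ρ

section

variable {G : Type*} [Group G]

lemma modular {Z A N : Subgroup G} [Z.Normal] (h : Z ≤ N) : (Z ⊔ A) ⊓ N ≤ Z ⊔ (A ⊓ N) := by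
  intro x hx
  rw [Subgroup.mem_inf] at hx
  obtain ⟨hx1, hx2⟩ := hx
  rw [← SetLike.mem_coe, Subgroup.normal_mul, Set.mem_mul] at hx1
  obtain ⟨z, hz, a, ha, rfl⟩ := hx1
  refine Subgroup.mul_mem _ (Subgroup.mem_sup_left hz) (Subgroup.mem_sup_right ?_)
  refine ⟨ha, ?_⟩
  have : z⁻¹ * (z * a) ∈ N := N.mul_mem (N.inv_mem (h hz)) hx2
  simpa using this

lemma chain_refl {M : ℕ} {L : Subgroup G} : Chain M L L :=
  ⟨0, fun _ => L, rfl, rfl, fun i hi => absurd hi (Nat.not_lt_zero i)⟩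

lemma chain_diamond [Finite G] {M : ℕ} (hM : 1 ≤ M) {Z A : Subgroup G} [Z.Normal] [A.Normal] :
    Chain M (Z ⊓ A) A ↔ Chain M Z (Z ⊔ A) := by
  have e2 : (Z ⊓ A).subgroupOf A = Z.subgroupOf A := by
    ext x
    simp [Subgroup.mem_subgroupOf]
  have e : A ⧸ (Z ⊓ A).subgroupOf A ≃* (A ⊔ Z : Subgroup G) ⧸ Z.subgroupOf (A ⊔ Z) :=
    (QuotientGroup.quotientMulEquivOfEq e2).trans (QuotientGroup.quotientInfEquivProdNormalQuotient A Z)
  rw [sup_comm Z A]
  constructor
  · intro h
    exact chain_of_ser le_sup_right (ser_equiv hM e (ser_of_chain inf_le_right h))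
  · intro h
    exact chain_of_ser inf_le_right (ser_equiv hM e.symm (ser_of_chain le_sup_right h))

/-- the diamond above -/
lemma BadCh.up [Finite G] {M : ℕ} (hM : 1 ≤ M) {A B Z : Subgroup G} (h : BadCh M A B) [hZ : Z.Normal]
    (hZA : Z ⊓ A = B) : BadCh M (Z ⊔ A) Z := by
  have hA := h.normal_top
  have hB := h.normal_bot
  have hBZ : B ≤ Z := by rw [← hZA]; exact inf_le_left
  refine ⟨inferInstance, hZ, ?_, ?_, ?_⟩
  · refine lt_of_le_of_ne le_sup_left fun e => ?_
    have h1 : A ≤ Z := by rw [e]; exact le_sup_right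
    rw [inf_eq_right.2 h1] at hZA
    exact h.lt.ne hZA.symm
  · intro N hN h1 h2
    have h3 : N ≤ Z ⊔ (A ⊓ N) := (le_inf h2 le_rfl).trans (modular h1)
    have hBN : B ≤ A ⊓ N := le_inf h.lt.le (hBZ.trans h1)
    rcases h.chief (A ⊓ N) inferInstance hBN inf_le_left with h4 | h4
    · left
      rw [h4, sup_eq_left.2 hBZ] at h3
      exact le_antisymm h3 h1
    · right
      rw [h4] at h3
      refine le_antisymm h2 (sup_le h1 ?_)
      rw [← h4]
      exact inf_le_right
  · intro hc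
    apply h.bad
    rw [← hZA]
    exact (chain_diamond hM).2 hc

/-- the diamond below -/
lemma BadCh.down [Finite G] {M : ℕ} (hM : 1 ≤ M) {A B L : Subgroup G} (h : BadCh M A B)
    [hL : L.Normal] (hLA : L ≤ A) (hLB : L ⊔ B = A) : BadCh M L (L ⊓ B) := by
  have hA := h.normal_top
  have hB := h.normal_bot
  refine ⟨hL, inferInstance, ?_, ?_, ?_⟩
  · refine lt_of_le_of_ne inf_le_left fun e => ?_
    have h1 : L ≤ B := by rw [← e]; exact inf_le_right
    rw [sup_eq_right.2 h1] at hLB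
    exact h.lt.ne hLB
  · intro N hN h1 h2
    have h3 : (B ⊔ N) ⊓ L ≤ N := by
      rw [sup_comm]
      refine (modular h2).trans (sup_le le_rfl ?_)
      rw [inf_comm]
      exact h1
    rcases h.chief (B ⊔ N) inferInstance le_sup_left (sup_le h.lt.le (h2.trans hLA)) with h4 | h4
    · left
      refine le_antisymm (le_inf h2 ?_) h1
      rw [← h4]
      exact le_sup_right
    · right
      rw [h4, inf_eq_right.2 hLA] at h3
      exact le_antisymm h2 h3
  · intro hc
    apply h.bad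
    rw [inf_comm] at hc
    have h5 := (chain_diamond hM).1 hc
    rw [sup_comm, hLB] at h5
    exact h5

/-- the centralizer of a section -/
def secC (A B : Subgroup G) [B.Normal] : Subgroup G :=
  (centralizer ((A.map (QuotientGroup.mk' B) : Subgroup (G ⧸ B)) : Set (G ⧸ B))).comap
    (QuotientGroup.mk' B)

lemma mem_secC {A B : Subgroup G} [B.Normal] {g : G} :
    g ∈ secC A B ↔ ∀ a ∈ A, g * a * g⁻¹ * a⁻¹ ∈ B := by
  unfold secC
  rw [Subgroup.mem_comap, Subgroup.mem_centralizer_iff]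
  constructor
  · intro h a ha
    have h1 := h (QuotientGroup.mk' B a) (Subgroup.mem_map_of_mem _ ha)
    rw [← QuotientGroup.ker_mk' B, MonoidHom.mem_ker]
    rw [map_mul, map_mul, map_mul, map_inv, map_inv, ← h1]
    group
  · rintro h _ ⟨a, ha, rfl⟩
    have h1 := h a ha
    rw [← QuotientGroup.ker_mk' B, MonoidHom.mem_ker, map_mul, map_mul, map_mul, map_inv,
      map_inv, mul_inv_eq_one, mul_inv_eq_iff_eq_mul] at h1
    exact h1.symm

instance secC_normal {A B : Subgroup G} [A.Normal] [B.Normal] : (secC A B).Normal := by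
  unfold secC
  have h1 : (A.map (QuotientGroup.mk' B)).Normal :=
    Subgroup.Normal.map inferInstance _ (QuotientGroup.mk'_surjective B)
  infer_instance

lemma le_secC {A B : Subgroup G} [B.Normal] : B ≤ secC A B := by
  intro g hg
  rw [mem_secC]
  intro a _
  have h1 : a * g⁻¹ * a⁻¹ ∈ B := Subgroup.Normal.conj_mem inferInstance _ (B.inv_mem hg) a
  have h2 : g * (a * g⁻¹ * a⁻¹) ∈ B := B.mul_mem hg h1
  simpa only [mul_assoc] using h2

/-- the centralizer of a bad chief factor meets it trivially -/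
lemma BadCh.secC_inf [Finite G] {M : ℕ} (hM : 1 ≤ M) {A B : Subgroup G} (h : BadCh M A B)
    [hB : B.Normal] : secC A B ⊓ A = B := by
  have hA := h.normal_top
  rcases h.chief (secC A B ⊓ A) inferInstance (le_inf le_secC h.lt.le) inf_le_right with h1 | h1
  · exact h1
  · exfalso
    apply h.bad
    refine chain_abelian hM h.lt.le ?_
    intro x hx y hy
    have h2 : x ∈ secC A B ⊓ A := by rw [h1]; exact hx
    exact mem_secC.1 h2.1 y hy

/-- a bad chief factor is perfect -/
lemma BadCh.perfect [Finite G] {M : ℕ} (hM : 1 ≤ M) {A B : Subgroup G} (h : BadCh M A B) :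
    ⁅A, A⁆ ⊔ B = A := by
  have hA := h.normal_top
  have hB := h.normal_bot
  have h0 : ⁅A, A⁆ ≤ A := by
    rw [Subgroup.commutator_le]
    intro x hx y hy
    rw [commutatorElement_def]
    exact A.mul_mem (A.mul_mem (A.mul_mem hx hy) (A.inv_mem hx)) (A.inv_mem hy)
  rcases h.chief (⁅A, A⁆ ⊔ B) inferInstance le_sup_right (sup_le h0 h.lt.le) with h1 | h1
  · exfalso
    apply h.bad
    refine chain_abelian hM h.lt.le ?_
    intro x hx y hy
    have h2 : ⁅x, y⁆ ∈ ⁅A, A⁆ ⊔ B := Subgroup.mem_sup_left (Subgroup.commutator_mem_commutator hx hy)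
    rw [h1, commutatorElement_def] at h2
    exact h2
  · exact h1

lemma mem_sup_iff_mk {H B : Subgroup G} [B.Normal] {x : G} :
    x ∈ H ⊔ B ↔ ∃ y ∈ H, QuotientGroup.mk' B y = QuotientGroup.mk' B x := by
  have h1 : H ⊔ B = (H.map (QuotientGroup.mk' B)).comap (QuotientGroup.mk' B) := by
    rw [Subgroup.comap_map_eq, QuotientGroup.ker_mk']
  rw [h1, Subgroup.mem_comap, Subgroup.mem_map]

/-- the normal subgroups covering a bad chief factor are closed under intersection -/
lemma BadCh.cover_inf [Finite G] {M : ℕ} (hM : 1 ≤ M) {A B N₁ N₂ : Subgroup G} (h : BadCh M A B)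
    (h1n : N₁.Normal) (h2n : N₂.Normal) (h1 : A ≤ N₁ ⊔ B) (h2 : A ≤ N₂ ⊔ B) : A ≤ (N₁ ⊓ N₂) ⊔ B := by
  have hA := h.normal_top
  have hB := h.normal_bot
  have h3 : ⁅A, A⁆ ≤ (N₁ ⊓ N₂) ⊔ B := by
    rw [Subgroup.commutator_le]
    intro x hx y hy
    obtain ⟨x', hx', ex⟩ := mem_sup_iff_mk.1 (h1 hx)
    obtain ⟨y', hy', ey⟩ := mem_sup_iff_mk.1 (h2 hy)
    rw [mem_sup_iff_mk]
    refine ⟨⁅x', y'⁆, ?_, ?_⟩
    · rw [commutatorElement_def]
      refine ⟨?_, ?_⟩
      · have e1 : x' * y' * x'⁻¹ * y'⁻¹ = x' * (y' * x'⁻¹ * y'⁻¹) := by group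
        rw [e1]
        exact N₁.mul_mem hx' (h1n.conj_mem _ (N₁.inv_mem hx') y')
      · exact N₂.mul_mem (h2n.conj_mem _ hy' x') (N₂.inv_mem hy')
    · rw [map_commutatorElement, map_commutatorElement, ex, ey]
  rw [← h.perfect hM]
  exact sup_le h3 le_sup_right

/-- two normal subgroups centralize each other modulo their intersection -/
lemma mem_secC_of_not_cover {M : ℕ} {A B N : Subgroup G} (h : BadCh M A B) [hB : B.Normal]
    (hN : N.Normal) (hc : ¬ A ≤ N ⊔ B) : N ≤ secC A B := by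
  have hA := h.normal_top
  have h1 : (N ⊔ B) ⊓ A = B := by
    rcases h.chief ((N ⊔ B) ⊓ A) inferInstance (le_inf le_sup_right h.lt.le) inf_le_right with h2 | h2
    · exact h2
    · exact absurd (inf_eq_right.1 h2) hc
  intro g hg
  rw [mem_secC]
  intro a ha
  rw [← h1]
  refine ⟨Subgroup.mem_sup_left ?_, ?_⟩
  · have e1 : g * a * g⁻¹ * a⁻¹ = g * (a * g⁻¹ * a⁻¹) := by group
    rw [e1]
    exact N.mul_mem hg (hN.conj_mem _ (N.inv_mem hg) a)
  · exact A.mul_mem (hA.conj_mem _ ha g) (A.inv_mem ha)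

lemma mem_ival [Finite G] {L C N : Subgroup G} : N ∈ ival L C ↔ N.Normal ∧ L ≤ N ∧ N ≤ C := by
  classical
  unfold ival
  rw [mem_filter, mem_nsg]

/-- a section without a series contains a bad chief factor -/
lemma exists_badCh [Finite G] {M : ℕ} {L C : Subgroup G} [hL : L.Normal] [hC : C.Normal] (hLC : L ≤ C)
    (h : ¬ Chain M L C) : ∃ A B : Subgroup G, L ≤ B ∧ A ≤ C ∧ BadCh M A B := by
  classical
  obtain ⟨A, hA1, hA2⟩ := Finset.exists_min_image
    ((ival L C).filter (fun N => ¬ Chain M L N)) (fun N : Subgroup G => Nat.card N)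
    ⟨C, mem_filter.2 ⟨mem_ival.2 ⟨hC, hLC, le_rfl⟩, h⟩⟩
  rw [mem_filter, mem_ival] at hA1
  obtain ⟨⟨hAn, hLA, hAC⟩, hAc⟩ := hA1
  have hmin : ∀ N : Subgroup G, N.Normal → L ≤ N → N < A → Chain M L N := by
    intro N hN hLN hNA
    by_contra hcon
    have h1 := hA2 N (mem_filter.2 ⟨mem_ival.2 ⟨hN, hLN, hNA.le.trans hAC⟩, hcon⟩)
    have h2 : Nat.card N < Nat.card A := Set.Finite.card_lt_card (Set.toFinite _) hNA
    exact absurd h2 (not_lt.2 h1)
  have hLA' : L < A := by
    refine lt_of_le_of_ne hLA ?_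
    rintro rfl
    exact hAc chain_refl
  obtain ⟨B, hB1, hB2⟩ := Finset.exists_max_image
    ((ival L A).filter (fun N => N ≠ A)) (fun N : Subgroup G => Nat.card N)
    ⟨L, mem_filter.2 ⟨mem_ival.2 ⟨hL, le_rfl, hLA⟩, hLA'.ne⟩⟩
  rw [mem_filter, mem_ival] at hB1
  obtain ⟨⟨hBn, hLB, hBA⟩, hBne⟩ := hB1
  have hBlt : B < A := lt_of_le_of_ne hBA hBne
  refine ⟨A, B, hLB, hAC, hAn, hBn, hBlt, ?_, ?_⟩
  · intro N hN hBN hNA
    by_cases hNe : N = A
    · exact Or.inr hNe
    · left
      have h1 := hB2 N (mem_filter.2 ⟨mem_ival.2 ⟨hN, hLB.trans hBN, hNA⟩, hNe⟩)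
      by_contra hne
      have h2 : Nat.card B < Nat.card N := Set.Finite.card_lt_card (Set.toFinite _)
        (SetLike.coe_ssubset_coe.2 (lt_of_le_of_ne hBN (Ne.symm hne)))
      exact absurd h2 (not_lt.2 h1)
  · intro hc
    exact hAc (chain_trans (hmin B hBn hLB hBlt) hc)

/-- the splitting of an interval by a bad chief factor -/
lemma split [Finite G] {M : ℕ} (hM : 1 ≤ M) {L C A B : Subgroup G} (hC : C.Normal)
    (h : BadCh M A B) (hLB : L ≤ B) (hAC : A ≤ C) :
    ∃ Z L' : Subgroup G, Z.Normal ∧ L'.Normal ∧ L ≤ Z ∧ Z ≤ C ∧ L ≤ L' ∧ L' ≤ A ∧ L' ⊔ B = A ∧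
      Z ⊓ A = B ∧ ∀ f : Subgroup G → ℕ,
        ∑ N ∈ ival L C, f N = ∑ N ∈ ival L Z, f N + ∑ N ∈ ival L' C, f N := by
  classical
  have hA := h.normal_top
  have hB := h.normal_bot
  set Z : Subgroup G := C ⊓ secC A B with hZ
  set T : Finset (Subgroup G) := (ival L C).filter (fun N => A ≤ N ⊔ B) with hT
  set L' : Subgroup G := T.inf id with hL'
  have hLA : L ≤ A := hLB.trans h.lt.le
  have hAT : A ∈ T := mem_filter.2 ⟨mem_ival.2 ⟨hA, hLA, hAC⟩, le_sup_left⟩
  have hL'A : L' ≤ A := Finset.inf_le (f := id) hAT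
  have hprop : L'.Normal ∧ L ≤ L' ∧ A ≤ L' ⊔ B := by
    refine Finset.inf_induction (p := fun N : Subgroup G => N.Normal ∧ L ≤ N ∧ A ≤ N ⊔ B)
      ?_ ?_ ?_
    · exact ⟨inferInstance, le_top, by rw [top_sup_eq]; exact le_top⟩
    · rintro N₁ ⟨a1, a2, a3⟩ N₂ ⟨b1, b2, b3⟩
      exact ⟨inferInstance, le_inf a2 b2, h.cover_inf hM a1 b1 a3 b3⟩
    · intro N hN
      rw [hT, mem_filter, mem_ival] at hN
      exact ⟨hN.1.1, hN.1.2.1, hN.2⟩
  obtain ⟨hL'n, hLL', hAL'⟩ := hprop
  have hLB' : L' ⊔ B = A := le_antisymm (sup_le hL'A h.lt.le) hAL'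
  have hZn : Z.Normal := inferInstance
  have hLZ : L ≤ Z := le_inf (hLA.trans hAC) (hLB.trans le_secC)
  have hBZ : B ≤ Z := le_inf (h.lt.le.trans hAC) le_secC
  have hZA : Z ⊓ A = B := by
    rw [hZ, inf_assoc, h.secC_inf hM]
    exact inf_eq_right.2 (h.lt.le.trans hAC)
  refine ⟨Z, L', hZn, hL'n, hLZ, inf_le_left, hLL', hL'A, hLB', hZA, fun f => ?_⟩
  have hdis : Disjoint (ival L Z) (ival L' C) := by
    rw [Finset.disjoint_left]
    intro N hN hN'
    rw [mem_ival] at hN hN'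
    have h1 : A ≤ Z := by
      rw [← hLB']
      exact sup_le (hN'.2.1.trans hN.2.2) hBZ
    rw [inf_eq_right.2 h1] at hZA
    exact h.lt.ne hZA.symm
  rw [← Finset.sum_union hdis]
  refine Finset.sum_congr ?_ fun _ _ => rfl
  ext N
  rw [Finset.mem_union, mem_ival, mem_ival, mem_ival]
  constructor
  · rintro ⟨h1, h2, h3⟩
    by_cases hc : A ≤ N ⊔ B
    · right
      refine ⟨h1, ?_, h3⟩
      exact Finset.inf_le (f := id) (mem_filter.2 ⟨mem_ival.2 ⟨h1, h2, h3⟩, hc⟩)
    · left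
      exact ⟨h1, h2, le_inf h3 (mem_secC_of_not_cover h h1 hc)⟩
  · rintro (⟨h1, h2, h3⟩ | ⟨h1, h2, h3⟩)
    · exact ⟨h1, h2, h3.trans inf_le_left⟩
    · exact ⟨h1, hLL'.trans h2, h3⟩

/-- the measure below drops -/
lemma Few.left [Finite G] {M ρ : ℕ} (hM : 1 ≤ M) {L C A B Z : Subgroup G}
    (h : Few M ρ L C) (hb : BadCh M A B) (hLZ : L ≤ Z) (hZC : Z ≤ C) (hAC : A ≤ C) (hZn : Z.Normal)
    (hZA : Z ⊓ A = B) : 1 ≤ ρ ∧ Few M (ρ - 1) L Z := by
  have key : ∀ (t : ℕ) (A' B' : ℕ → Subgroup G), (∀ i < t, BadCh M (A' i) (B' i)) →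
      (∀ i < t, L ≤ B' i ∧ A' i ≤ Z) → (∀ i, i + 1 < t → A' i ≤ B' (i + 1)) → t + 1 ≤ ρ := by
    intro t A' B' h1 h2 h3
    refine h (t + 1) (fun i => if i < t then A' i else Z ⊔ A) (fun i => if i < t then B' i else Z)
      ?_ ?_ ?_
    · intro i hi
      by_cases hit : i < t
      · simp only [if_pos hit]
        exact h1 i hit
      · simp only [if_neg hit]
        exact hb.up hM hZA
    · intro i hi
      by_cases hit : i < t
      · simp only [if_pos hit]
        exact ⟨(h2 i hit).1, (h2 i hit).2.trans hZC⟩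
      · simp only [if_neg hit]
        exact ⟨hLZ, sup_le hZC hAC⟩
    · intro i hi
      have hit : i < t := by omega
      simp only [if_pos hit]
      by_cases hit' : i + 1 < t
      · simp only [if_pos hit']
        exact h3 i hit'
      · simp only [if_neg hit']
        exact (h2 i hit).2
  refine ⟨?_, fun t A' B' h1 h2 h3 => ?_⟩
  · have := key 0 (fun _ => ⊥) (fun _ => ⊥) (fun i hi => absurd hi (Nat.not_lt_zero i))
      (fun i hi => absurd hi (Nat.not_lt_zero i)) (fun i hi => absurd hi (by omega))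
    omega
  · have := key t A' B' h1 h2 h3
    omega

/-- the measure above drops -/
lemma Few.right [Finite G] {M ρ : ℕ} (hM : 1 ≤ M) {L C A B L' : Subgroup G}
    (h : Few M ρ L C) (hb : BadCh M A B) (hLB : L ≤ B) (hLL' : L ≤ L') (hAC : A ≤ C)
    (hL'n : L'.Normal) (hL'A : L' ≤ A) (hLA : L' ⊔ B = A) : Few M (ρ - 1) L' C := by
  intro t A' B' h1 h2 h3
  have h4 : t + 1 ≤ ρ := by
    refine h (t + 1) (fun i => Nat.casesOn i L' A') (fun i => Nat.casesOn i (L' ⊓ B) B') ?_ ?_ ?_
    · intro i hi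
      cases i with
      | zero => exact hb.down hM hL'A hLA
      | succ i => exact h1 i (by omega)
    · intro i hi
      cases i with
      | zero => exact ⟨le_inf hLL' hLB, hL'A.trans hAC⟩
      | succ i => exact ⟨hLL'.trans (h2 i (by omega)).1, (h2 i (by omega)).2⟩
    · intro i hi
      cases i with
      | zero => exact (h2 0 (by omega)).1
      | succ i => exact h3 i (by omega)
  omega

/-- the partition of the lattice of normal subgroups -/
theorem exists_part [Finite G] {M : ℕ} (hM : 1 ≤ M) : ∀ (ρ : ℕ) (L C : Subgroup G), L.Normal →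
    C.Normal → L ≤ C → Few M ρ L C → ∃ P : List (Subgroup G × Subgroup G), P.length ≤ 2 ^ ρ ∧
      (∀ c ∈ P, c.1.Normal ∧ c.2.Normal ∧ c.1 ≤ c.2 ∧ Chain M c.1 c.2) ∧
      ∀ f : Subgroup G → ℕ, ∑ N ∈ ival L C, f N =
        (P.map (fun c => ∑ N ∈ ival c.1 c.2, f N)).sum := by
  intro ρ
  induction ρ with
  | zero =>
    intro L C hL hC hLC hF
    by_cases hc : Chain M L C
    · exact ⟨[(L, C)], by simp, by simp [hL, hC, hLC, hc], fun f => by simp⟩
    · exfalso
      obtain ⟨A, B, hLB, hAC, hb⟩ := exists_badCh hLC hc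
      obtain ⟨Z, L', hZn, hL'n, hLZ, hZC, hLL', hL'A, hLA, hZA, -⟩ := split hM hC hb hLB hAC
      have := (hF.left hM hb hLZ hZC hAC hZn hZA).1
      omega
  | succ ρ ih =>
    intro L C hL hC hLC hF
    by_cases hc : Chain M L C
    · exact ⟨[(L, C)], by simpa using Nat.one_le_two_pow, by simp [hL, hC, hLC, hc],
        fun f => by simp⟩
    · obtain ⟨A, B, hLB, hAC, hb⟩ := exists_badCh hLC hc
      obtain ⟨Z, L', hZn, hL'n, hLZ, hZC, hLL', hL'A, hLA, hZA, hsum⟩ := split hM hC hb hLB hAC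
      have hl := (hF.left hM hb hLZ hZC hAC hZn hZA).2
      have hr := hF.right hM hb hLB hLL' hAC hL'n hL'A hLA
      rw [Nat.add_sub_cancel] at hl hr
      obtain ⟨P₁, p1, p2, p3⟩ := ih L Z hL hZn hLZ hl
      obtain ⟨P₂, q1, q2, q3⟩ := ih L' C hL'n hC (hL'A.trans hAC) hr
      refine ⟨P₁ ++ P₂, ?_, ?_, ?_⟩
      · rw [List.length_append, pow_succ]
        omega
      · intro c hcP
        rcases List.mem_append.1 hcP with h | h
        · exact p2 c h
        · exact q2 c h
      · intro f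
        rw [hsum, p3, q3, List.map_append, List.sum_append]

/-- a section of small order has few bad chief factors -/
theorem few_of_relIndex [Finite G] {M ρ : ℕ} {L C : Subgroup G}
    (h : L.relIndex C < (M + 1) ^ (ρ + 1)) : Few M ρ L C := by
  intro t A B h1 h2 h3
  have key : ∀ (t : ℕ) (C : Subgroup G) (A B : ℕ → Subgroup G), (∀ i < t, BadCh M (A i) (B i)) →
      (∀ i < t, L ≤ B i ∧ A i ≤ C) → (∀ i, i + 1 < t → A i ≤ B (i + 1)) →
      (M + 1) ^ t ≤ L.relIndex C := by
    intro t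
    induction t with
    | zero =>
      intro C A B _ _ _
      rw [pow_zero]
      exact Nat.one_le_iff_ne_zero.2 (Subgroup.index_ne_zero_of_finite (H := L.subgroupOf C))
    | succ t ih =>
      intro C A B h1 h2 h3
      have e1 : (M + 1) ^ t ≤ L.relIndex (B t) := by
        refine ih (B t) A B (fun i hi => h1 i (by omega)) (fun i hi => ⟨(h2 i (by omega)).1, ?_⟩)
          (fun i hi => h3 i (by omega))
        have mono : ∀ j, i + j < t → A i ≤ A (i + j) := by
          intro j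
          induction j with
          | zero => exact fun _ => le_rfl
          | succ j ihj =>
            intro hj
            refine (ihj (by omega)).trans ((h3 (i + j) (by omega)).trans ?_)
            exact (h1 (i + j + 1) (by omega)).lt.le
        obtain ⟨j, rfl⟩ : ∃ j, t = i + j + 1 := ⟨t - i - 1, by omega⟩
        exact (mono j (by omega)).trans (h3 (i + j) (by omega))
      have hb := h1 t (by omega)
      have hBn := hb.normal_bot
      have e2 : M + 1 ≤ (B t).relIndex (A t) := by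
        by_contra hcon
        exact hb.bad (chain_small hb.lt.le (by omega))
      have e3 : L.relIndex (B t) * (B t).relIndex (A t) = L.relIndex (A t) :=
        Subgroup.relIndex_mul_relIndex _ _ _ (h2 t (by omega)).1 hb.lt.le
      have e4 : L.relIndex (A t) * (A t).relIndex C = L.relIndex C :=
        Subgroup.relIndex_mul_relIndex _ _ _ ((h2 t (by omega)).1.trans hb.lt.le) (h2 t (by omega)).2
      have e5 : 1 ≤ (A t).relIndex C :=
        Nat.one_le_iff_ne_zero.2 (Subgroup.index_ne_zero_of_finite (H := (A t).subgroupOf C))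
      rw [pow_succ, ← e4, ← e3]
      calc (M + 1) ^ t * (M + 1) ≤ L.relIndex (B t) * (B t).relIndex (A t) := Nat.mul_le_mul e1 e2
        _ ≤ L.relIndex (B t) * (B t).relIndex (A t) * (A t).relIndex C := Nat.le_mul_of_pos_right _ e5
  have h4 := (key t C A B h1 h2 h3).trans_lt h
  have h5 : t < ρ + 1 := by
    by_contra hcon
    exact absurd h4 (not_lt.2 (Nat.pow_le_pow_right (by omega) (by omega)))
  omega

end

end Pool.Agent.Helper72.LGI
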