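import Pool.Agent.Helper75.LGI.VOB

/-!
# Counting the values, all groups
-/

set_option autoImplicit false

namespace Pool.Agent.Helper72.LGI

open Subgroup Finset Pool.Agent.Helper72.LG Pool.Agent.Helper72.LGS

/-- the bound for the number of values of an interval -/
def NV (TB Kb h W : ℕ) : ℕ :=
  TB * ((Kb ^ Nat.log 2 Kb) ^ h * (Kb + 1) * (Kb ^ Nat.log 2 Kb) ^ (W + 1) * 2 ^ (W + 1))

/-- the sums of at most `R` values -/
def VSI (M Kb h R : ℕ) (S : Finset ℕ) : Set ℕ :=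
  {v | ∃ l : List ℕ, l.length ≤ R ∧ (∀ x ∈ l, x ∈ VSO M Kb h S) ∧ v = l.sum}

/-- the sums of at most `R` elements of a finite set -/
lemma exists_sums (A : Finset ℕ) (R : ℕ) : ∃ B : Finset ℕ, B.card ≤ (A.card + 1) ^ R ∧
    ∀ l : List ℕ, l.length ≤ R → (∀ x ∈ l, x ∈ A) → l.sum ∈ B := by
  classical
  induction R with
  | zero =>
    refine ⟨{0}, by simp, fun l hl _ => ?_⟩
    have : l = [] := List.length_eq_zero_iff.1 (Nat.le_zero.1 hl)
    rw [this]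
    simp
  | succ R ih =>
    obtain ⟨B, hB1, hB2⟩ := ih
    refine ⟨(insert 0 A ×ˢ B).image (fun x => x.1 + x.2), ?_, ?_⟩
    · refine card_image_le.trans ?_
      rw [card_product, pow_succ, mul_comm]
      exact Nat.mul_le_mul hB1 (card_insert_le 0 A)
    · intro l hl hlA
      rw [mem_image]
      cases l with
      | nil =>
        exact ⟨(0, 0), mem_product.2 ⟨mem_insert_self _ _, hB2 [] (Nat.zero_le _) (by simp)⟩, rfl⟩
      | cons a l =>
        refine ⟨(a, l.sum), mem_product.2 ⟨mem_insert_of_mem (hlA a (by simp)), ?_⟩, by simp⟩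
        exact hB2 l (by simpa using hl) fun x hx => hlA x (by simp [hx])

theorem VSI_bound {M Kb TB : ℕ} (h R : ℕ) (hT : Types M Kb TB) (S : Finset ℕ) :
    ∃ A : Finset ℕ, A.card ≤ (NV TB Kb h S.card + 1) ^ R ∧ VSI M Kb h R S ⊆ A := by
  obtain ⟨A, hA1, hA2⟩ := VSO_bound h hT S
  obtain ⟨B, hB1, hB2⟩ := exists_sums A R
  refine ⟨B, hB1.trans (Nat.pow_le_pow_left (Nat.succ_le_succ hA1) R), ?_⟩
  rintro v ⟨l, hl, hlV, rfl⟩
  exact hB2 l hl fun x hx => hA2 (hlV x hx)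

lemma NV_mono {TB Kb h W W' : ℕ} (hKb : 1 ≤ Kb) (hW : W ≤ W') : NV TB Kb h W ≤ NV TB Kb h W' := by
  unfold NV
  have h1 : 1 ≤ Kb ^ Nat.log 2 Kb := Nat.one_le_pow _ _ hKb
  gcongr
  · norm_num

/-- the number of products of a cofactor and a prime divisor of a value -/
theorem count_valuesI {M Kb TB : ℕ} (h' R : ℕ) (hT : Types M Kb TB) {Gd Ms : Finset ℕ}
    {Sf : ℕ → Finset ℕ} {W Vmax : ℕ} (hKb : 1 ≤ Kb)
    (h : ∀ n ∈ Gd, ∃ m ∈ Ms, ∃ q, n = m * q ∧ q.Prime ∧ ∃ v ∈ VSI M Kb h' R (Sf m),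
      v ≠ 0 ∧ q ∣ v ∧ v ≤ Vmax) (hS : ∀ m ∈ Ms, (Sf m).card ≤ W) :
    Gd.card ≤ Ms.card * ((NV TB Kb h' W + 1) ^ R * Nat.log 2 Vmax) := by
  classical
  have hA : ∀ m : ℕ, ∃ A : Finset ℕ, A.card ≤ (NV TB Kb h' (Sf m).card + 1) ^ R ∧
    VSI M Kb h' R (Sf m) ⊆ A := fun m => VSI_bound h' R hT (Sf m)
  choose A hA1 hA2 using hA
  have hsub : Gd ⊆ Ms.biUnion (fun m => ((A m).filter (fun v => v ≠ 0 ∧ v ≤ Vmax)).biUnion
      (fun v => v.primeFactors.image (fun q => m * q))) := by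
    intro n hn
    obtain ⟨m, hm, q, hnq, hq, v, hv, hv0, hqv, hvV⟩ := h n hn
    rw [mem_biUnion]
    refine ⟨m, hm, ?_⟩
    rw [mem_biUnion]
    refine ⟨v, mem_filter.2 ⟨hA2 m hv, hv0, hvV⟩, ?_⟩
    rw [mem_image]
    exact ⟨q, Nat.mem_primeFactors.2 ⟨hq, hqv, hv0⟩, hnq.symm⟩
  refine (card_le_card hsub).trans (card_biUnion_le.trans ?_)
  rw [← smul_eq_mul]
  refine sum_le_card_nsmul _ _ _ fun m hm => ?_
  refine card_biUnion_le.trans ?_
  calc ∑ v ∈ (A m).filter (fun v => v ≠ 0 ∧ v ≤ Vmax), (v.primeFactors.image (fun q => m * q)).card ≤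
      ∑ _v ∈ (A m).filter (fun v => v ≠ 0 ∧ v ≤ Vmax), Nat.log 2 Vmax := by
        refine sum_le_sum fun v hv => ?_
        rw [mem_filter] at hv
        refine card_image_le.trans ((_root_.LG.card_primeFactors_le hv.2.1).trans ?_)
        exact Nat.log_mono_right hv.2.2
    _ = ((A m).filter (fun v => v ≠ 0 ∧ v ≤ Vmax)).card * Nat.log 2 Vmax := by
        rw [sum_const, smul_eq_mul]
    _ ≤ (NV TB Kb h' W + 1) ^ R * Nat.log 2 Vmax := by
        refine Nat.mul_le_mul_right _ ?_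
        refine (card_le_card (filter_subset _ _)).trans ((hA1 m).trans ?_)
        exact Nat.pow_le_pow_left (Nat.succ_le_succ (NV_mono hKb (hS m hm))) R

end Pool.Agent.Helper72.LGI
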