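import Pool.Agent.Helper72.LGS.Defs
import Pool.Agent.Helper72.LG.Sum

/-!
# Intervals of normal subgroups and groups with operators: definitions
-/

set_option autoImplicit false

namespace Pool.Agent.Helper72.LGI

open Subgroup Finset Pool.Agent.Helper72.LG

/-- there is a subnormal series from `L` to `C` whose factors have prime order or order at most `M` -/
def Chain {G : Type*} [Group G] (M : ℕ) (L C : Subgroup G) : Prop :=
  ∃ (r : ℕ) (f : ℕ → Subgroup G), f 0 = L ∧ f r = C ∧ ∀ i < r, f i ≤ f (i + 1) ∧
    ((f i).subgroupOf (f (i + 1))).Normal ∧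
      (((f i).relIndex (f (i + 1))).Prime ∨ (f i).relIndex (f (i + 1)) ≤ M)

open scoped Classical in
/-- the normal subgroups between `L` and `C` -/
noncomputable def ival {G : Type*} [Group G] [Finite G] (L C : Subgroup G) : Finset (Subgroup G) :=
  (nsg G).filter (fun N => L ≤ N ∧ N ≤ C)

/-- the subgroups below `L` which are invariant under the given automorphisms -/
noncomputable def inv {Q : Type*} [Group Q] [Finite Q] {h : ℕ} (a : Fin h → MulAut Q)
    (L : Subgroup Q) : Finset (Subgroup Q) :=
  (Set.toFinite {H : Subgroup Q | (∀ j, H.map (a j).toMonoidHom = H) ∧ H ≤ L}).toFinset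

open scoped Classical in
/-- the value of a group with operators -/
noncomputable def VO (Q : Type*) [Group Q] [Finite Q] (S : Finset ℕ) {h : ℕ} (a : Fin h → MulAut Q)
    (c : ℕ) (K : ℕ → Subgroup Q) (b : ℕ → Bool) (L : Subgroup Q) (bL : Bool) : ℕ :=
  if bL = true then
    ∑ H ∈ inv a L, c * Nat.card H * ∏ p ∈ S, (p + if b p = true ∧ H ≤ K p then 1 else 0)
  else 0

end Pool.Agent.Helper72.LGI
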