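import Pool.Agent.Helper72.LGI.MainV
import Pool.Agent.Helper72.LGS.Main

/-!
# The exceptional set, groups with few bad chief factors
-/

set_option autoImplicit false

namespace Pool.Agent.Helper72.LGI

open Subgroup Finset Pool.Agent.Helper72.LG Pool.Agent.Helper72.LGS

lemma types_KB (s : ℕ) (hs : 1 ≤ s) : Types s (KB s) (TBf s) :=
  exists_types s (KB s) hs Nat.one_le_two_pow

lemma NV_KB {s : ℕ} (hs : 182 ≤ s) :
    NV (TBf s) (KB s) (Nat.log 2 (KB s)) (2 * s) + 1 ≤ 2 ^ (s ^ 10) := by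
  have hs1 : 1 ≤ s := by omega
  have hss : s ≤ s ^ 2 := by nlinarith
  have e1 : TBf s ≤ 2 ^ (32768 * s ^ 8) := TBf_le hs1
  have e2 : (KB s ^ Nat.log 2 (KB s)) ^ (2 * s + 1) ≤ 2 ^ (108 * s ^ 5) := KBpow_le hs1
  have b1 : 2 * s + 4 * s ^ 2 ≤ 6 * s ^ 2 := by nlinarith
  have e3 : (KB s ^ Nat.log 2 (KB s)) ^ Nat.log 2 (KB s) ≤ 2 ^ (216 * s ^ 6) := by
    rw [log_KB]
    unfold KB
    rw [← pow_mul, ← pow_mul]
    refine Nat.pow_le_pow_right (by norm_num) ?_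
    calc (2 * s + 4 * s ^ 2) * ((2 * s + 4 * s ^ 2) * (2 * s + 4 * s ^ 2)) ≤
        (6 * s ^ 2) * ((6 * s ^ 2) * (6 * s ^ 2)) := Nat.mul_le_mul b1 (Nat.mul_le_mul b1 b1)
      _ = 216 * s ^ 6 := by ring
  have e4 : KB s + 1 ≤ 2 ^ (7 * s ^ 2) := by
    unfold KB
    have h1 : 2 ^ (2 * s + 4 * s ^ 2) + 1 ≤ 2 ^ (2 * s + 4 * s ^ 2 + 1) := by
      generalize 2 * s + 4 * s ^ 2 = a
      have h2 := Nat.one_le_two_pow (n := a)
      have h3 : 2 ^ (a + 1) = 2 ^ a + 2 ^ a := by ring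
      omega
    refine h1.trans (Nat.pow_le_pow_right (by norm_num) ?_)
    have : 1 ≤ s ^ 2 := Nat.one_le_pow _ _ hs1
    omega
  unfold NV
  have e6 : TBf s * ((KB s ^ Nat.log 2 (KB s)) ^ Nat.log 2 (KB s) * (KB s + 1) *
      (KB s ^ Nat.log 2 (KB s)) ^ (2 * s + 1) * 2 ^ (2 * s + 1)) ≤ 2 ^ (33102 * s ^ 8) := by
    calc TBf s * ((KB s ^ Nat.log 2 (KB s)) ^ Nat.log 2 (KB s) * (KB s + 1) *
        (KB s ^ Nat.log 2 (KB s)) ^ (2 * s + 1) * 2 ^ (2 * s + 1)) ≤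
        2 ^ (32768 * s ^ 8) * (2 ^ (216 * s ^ 6) * 2 ^ (7 * s ^ 2) * 2 ^ (108 * s ^ 5) *
          2 ^ (2 * s + 1)) :=
          Nat.mul_le_mul e1 (Nat.mul_le_mul_right _ (Nat.mul_le_mul (Nat.mul_le_mul e3 e4) e2))
      _ = 2 ^ (32768 * s ^ 8 + (216 * s ^ 6 + 7 * s ^ 2 + 108 * s ^ 5 + (2 * s + 1))) := by
          rw [← pow_add, ← pow_add, ← pow_add, ← pow_add]
      _ ≤ 2 ^ (33102 * s ^ 8) := by
          refine Nat.pow_le_pow_right (by norm_num) ?_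
          have a1 : s ^ 6 ≤ s ^ 8 := Nat.pow_le_pow_right hs1 (by norm_num)
          have a2 : s ^ 2 ≤ s ^ 8 := Nat.pow_le_pow_right hs1 (by norm_num)
          have a3 : s ^ 5 ≤ s ^ 8 := Nat.pow_le_pow_right hs1 (by norm_num)
          have a4 : s ≤ s ^ 8 := by
            calc s = s ^ 1 := (pow_one s).symm
              _ ≤ s ^ 8 := Nat.pow_le_pow_right hs1 (by norm_num)
          omega
  calc TBf s * ((KB s ^ Nat.log 2 (KB s)) ^ Nat.log 2 (KB s) * (KB s + 1) *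
      (KB s ^ Nat.log 2 (KB s)) ^ (2 * s + 1) * 2 ^ (2 * s + 1)) + 1 ≤
      2 ^ (33102 * s ^ 8) + 2 ^ (33102 * s ^ 8) := Nat.add_le_add e6 Nat.one_le_two_pow
    _ = 2 ^ (33102 * s ^ 8 + 1) := by ring
    _ ≤ 2 ^ (s ^ 10) := by
        refine Nat.pow_le_pow_right (by norm_num) ?_
        have a4 : 1 ≤ s ^ 8 := Nat.one_le_pow _ _ hs1
        have a3 : 33103 ≤ s ^ 2 := by nlinarith
        calc 33102 * s ^ 8 + 1 ≤ 33103 * s ^ 8 := by omega
          _ ≤ s ^ 2 * s ^ 8 := Nat.mul_le_mul_right _ a3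
          _ = s ^ 10 := by ring

/-- all but `4 N / 2 ^ s` numbers are typical -/
theorem main_few (D : ℕ) : ∃ s₀ : ℕ, 1 ≤ s₀ ∧ ∀ s, s₀ ≤ s → ∀ ρ : ℕ, 2 ^ ρ ≤ s ^ 2 →
    ∀ N : ℕ, 1 ≤ N → N < 2 ^ ((s + 1) ^ D) → ∀ A : Finset ℕ,
      (∀ n ∈ A, n ∈ Ioc 0 N ∧ ∃ (G : Type) (_ : Group G) (_ : Finite G), Nat.card G = n ∧
        (∀ (E : Subgroup G) (_ : E.Normal), Few s ρ (⊥ : Subgroup (G ⧸ E)) ⊤) ∧
        2 ^ (s ^ 15) < Nat.gcd n (∑ H ∈ nsg G, Nat.card H)) →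
      A.card * 2 ^ s ≤ 4 * N := by
  classical
  obtain ⟨s₁, hs₁⟩ := poly_le (2 * D + 2)
  refine ⟨max s₁ 182, le_trans (by norm_num) (le_max_right _ _), fun s hs ρ hρ N hN hNs A hA => ?_⟩
  have hss₁ : s₁ ≤ s := (le_max_left _ _).trans hs
  have hs182 : 182 ≤ s := (le_max_right _ _).trans hs
  have hs1 : 1 ≤ s := by omega
  have hpoly := hs₁ s hss₁
  have hlog : 1 + Real.log N ≤ (2 : ℝ) ^ s := by
    refine (logN_le hN hNs).trans ?_
    have h4 : ((1 + (s + 1) ^ D : ℕ) : ℝ) ≤ ((2 ^ s : ℕ) : ℝ) := by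
      have : 1 + (s + 1) ^ D ≤ 2 ^ s := by
        have h6 : 1 ≤ (s + 1) ^ D := Nat.one_le_pow _ _ (by omega)
        calc 1 + (s + 1) ^ D ≤ (s + 1) ^ 2 * ((s + 1) ^ D * (s + 1) ^ D) := by
              have h7 : 2 ≤ (s + 1) ^ 2 := by nlinarith
              have h8 : (s + 1) ^ D ≤ (s + 1) ^ D * (s + 1) ^ D := Nat.le_mul_of_pos_left _ h6
              calc 1 + (s + 1) ^ D ≤ 2 * (s + 1) ^ D := by omega
                _ ≤ (s + 1) ^ 2 * ((s + 1) ^ D * (s + 1) ^ D) := Nat.mul_le_mul h7 h8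
          _ = (s + 1) ^ (2 * D + 2) := by ring
          _ ≤ 2 ^ s := hpoly
      exact_mod_cast this
    push_cast at h4
    linarith
  have hNR : (0 : ℝ) ≤ N := Nat.cast_nonneg _
  set B := 2 ^ s with hB
  set z := 2 ^ (2 * s) with hz
  set y := 2 ^ (s ^ 13) with hy
  have hB1 : 1 ≤ B := Nat.one_le_two_pow
  have hz1 : 1 ≤ z := Nat.one_le_two_pow
  have hBz : B ≤ z := Nat.pow_le_pow_right (by norm_num) (by omega)
  have hzy : z ≤ y := by
    refine Nat.pow_le_pow_right (by norm_num) ?_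
    calc 2 * s ≤ s * s := Nat.mul_le_mul_right _ (by omega)
      _ = s ^ 2 := by ring
      _ ≤ s ^ 13 := Nat.pow_le_pow_right hs1 (by norm_num)
  set A₂ := A.filter (fun n => ∃ b, B < b ∧ b ^ 2 ∣ n) with hA₂
  set A₃ := A.filter (fun n => ∃ p, z < p ∧ p.Prime ∧ p ∣ n ∧
    ∃ c, c ∣ n ∧ c ≡ 1 [MOD p] ∧ c ≠ 1) with hA₃
  set A₅ := A.filter (fun n => 2 * s < n.primeFactors.card) with hA₅
  set A₆ := A \ (A₂ ∪ A₃ ∪ A₅) with hA₆
  have hcov : A.card ≤ A₂.card + A₃.card + A₅.card + A₆.card := by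
    have h1 : A ⊆ (A₂ ∪ A₃ ∪ A₅) ∪ A₆ := by
      intro n hn
      by_cases h : n ∈ A₂ ∪ A₃ ∪ A₅
      · exact mem_union_left _ h
      · exact mem_union_right _ (mem_sdiff.2 ⟨hn, h⟩)
    refine (card_le_card h1).trans ?_
    have u1 := card_union_le (A₂ ∪ A₃ ∪ A₅) A₆
    have u2 := card_union_le (A₂ ∪ A₃) A₅
    have u3 := card_union_le A₂ A₃
    omega
  have b2 : A₂.card * 2 ^ s ≤ N := by
    have := bad2 N B hB1 A₂ (fun n hn => ⟨(hA n (mem_filter.1 hn).1).1, (mem_filter.1 hn).2⟩)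
    exact_mod_cast this
  have b3 : A₃.card * 2 ^ s ≤ N := by
    have h1 := bad3 N z hz1 A₃ (fun n hn => ⟨(hA n (mem_filter.1 hn).1).1, (mem_filter.1 hn).2⟩)
    have h2 : (A₃.card : ℝ) * (2 : ℝ) ^ s * (2 : ℝ) ^ s ≤ N * (2 : ℝ) ^ s := by
      calc (A₃.card : ℝ) * (2 : ℝ) ^ s * (2 : ℝ) ^ s = (A₃.card : ℝ) * (z : ℝ) := by
            rw [hz]
            push_cast
            ring
        _ ≤ N * (1 + Real.log N) := h1
        _ ≤ N * (2 : ℝ) ^ s := mul_le_mul_of_nonneg_left hlog hNR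
    have h3 := le_of_mul_le_mul_right h2 (by positivity)
    exact_mod_cast h3
  have b5 : A₅.card * 2 ^ s ≤ N := by
    have h1 := bad5 N (2 * s) A₅ (fun n hn => ⟨(hA n (mem_filter.1 hn).1).1, (mem_filter.1 hn).2⟩)
    have h2 : (A₅.card : ℝ) * (2 : ℝ) ^ s * (2 : ℝ) ^ s ≤ N * (2 : ℝ) ^ s := by
      calc (A₅.card : ℝ) * (2 : ℝ) ^ s * (2 : ℝ) ^ s = (A₅.card : ℝ) * (2 : ℝ) ^ (2 * s) := by
            ring
        _ ≤ N * (1 + Real.log N) := h1
        _ ≤ N * (2 : ℝ) ^ s := mul_le_mul_of_nonneg_left hlog hNR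
    have h3 := le_of_mul_le_mul_right h2 (by positivity)
    exact_mod_cast h3
  have b6 : A₆.card * 2 ^ s ≤ N := by
    have h1 := core_count (M := s) (Kb := KB s) (TB := TBf s) (ρ := ρ) (W := 2 * s) (B := B) (z := z)
      (y := y) (N := N) (types_KB s hs1) hs1 Nat.one_le_two_pow hB1 hBz hzy A₆ (by
        intro n hn
        rw [hA₆, mem_sdiff] at hn
        obtain ⟨hnA, hnn⟩ := hn
        simp only [mem_union, not_or] at hnn
        obtain ⟨⟨n2, n3⟩, n5⟩ := hnn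
        obtain ⟨hnN, G, iG, iF, hG, hfew, hgcd⟩ := hA n hnA
        rw [mem_Ioc] at hnN
        have hn0 : n ≠ 0 := by omega
        have hsqB : ∀ b, B < b → ¬ b ^ 2 ∣ n := fun b hb hbn => n2 (mem_filter.2 ⟨hnA, b, hb, hbn⟩)
        have homega : n.primeFactors.card ≤ 2 * s := by
          by_contra h
          exact n5 (mem_filter.2 ⟨hnA, not_le.1 h⟩)
        refine ⟨mem_Ioc.2 hnN, hsqB, ?_, homega, ?_, G, iG, iF, hG, fun E hE _ => hfew E hE, ?_⟩
        · intro p hp hpp hpn c hc hc1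
          by_contra h
          exact n3 (mem_filter.2 ⟨hnA, p, hp, hpp, hpn, c, hc, hc1, h⟩)
        · refine (cof_le hn0 hz1 hBz hsqB homega).trans (le_of_eq ?_)
          rw [hB, hz]
          unfold KB
          rw [← pow_mul, ← pow_mul, ← pow_add]
          congr 1
          ring
        · refine lt_of_le_of_lt ?_ hgcd
          calc B ^ 2 * y ^ (2 * s) = 2 ^ (2 * s + 2 * s ^ 14) := by
                rw [hB, hy, ← pow_mul, ← pow_mul, ← pow_add]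
                congr 1
                ring
            _ ≤ 2 ^ (s ^ 15) := by
                refine Nat.pow_le_pow_right (by norm_num) ?_
                have a2 : s ≤ s ^ 14 := by
                  calc s = s ^ 1 := (pow_one s).symm
                    _ ≤ s ^ 14 := Nat.pow_le_pow_right hs1 (by norm_num)
                calc 2 * s + 2 * s ^ 14 ≤ 2 * s ^ 14 + 2 * s ^ 14 := by gcongr
                  _ = 4 * s ^ 14 := by ring
                  _ ≤ s * s ^ 14 := Nat.mul_le_mul_right _ (by omega)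
                  _ = s ^ 15 := by ring)
    calc A₆.card * 2 ^ s ≤ (N / y * ((NV (TBf s) (KB s) (Nat.log 2 (KB s)) (2 * s) + 1) ^ (2 ^ ρ) *
          Nat.log 2 (N ^ Nat.log 2 N * N))) * 2 ^ s := Nat.mul_le_mul_right _ h1
      _ = N / y * ((NV (TBf s) (KB s) (Nat.log 2 (KB s)) (2 * s) + 1) ^ (2 ^ ρ) *
          Nat.log 2 (N ^ Nat.log 2 N * N) * 2 ^ s) := by ring
      _ ≤ N / y * y := by
          refine Nat.mul_le_mul_left _ ?_
          have h3 : (NV (TBf s) (KB s) (Nat.log 2 (KB s)) (2 * s) + 1) ^ (2 ^ ρ) ≤ 2 ^ (s ^ 12) := by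
            calc (NV (TBf s) (KB s) (Nat.log 2 (KB s)) (2 * s) + 1) ^ (2 ^ ρ) ≤
                (2 ^ (s ^ 10)) ^ (2 ^ ρ) := Nat.pow_le_pow_left (NV_KB hs182) _
              _ ≤ (2 ^ (s ^ 10)) ^ (s ^ 2) := Nat.pow_le_pow_right (by positivity) hρ
              _ = 2 ^ (s ^ 12) := by
                  rw [← pow_mul]
                  congr 1
                  ring
          have h4 : Nat.log 2 (N ^ Nat.log 2 N * N) ≤ 2 ^ s := by
            refine (logV_le hN hNs).trans ?_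
            calc 2 * ((s + 1) ^ D) ^ 2 ≤ (s + 1) ^ 2 * ((s + 1) ^ D) ^ 2 :=
                  Nat.mul_le_mul_right _ (by nlinarith)
              _ = (s + 1) ^ (2 * D + 2) := by ring
              _ ≤ 2 ^ s := hpoly
          calc (NV (TBf s) (KB s) (Nat.log 2 (KB s)) (2 * s) + 1) ^ (2 ^ ρ) *
              Nat.log 2 (N ^ Nat.log 2 N * N) * 2 ^ s ≤ 2 ^ (s ^ 12) * 2 ^ s * 2 ^ s :=
                Nat.mul_le_mul_right _ (Nat.mul_le_mul h3 h4)
            _ = 2 ^ (s ^ 12 + s + s) := by rw [← pow_add, ← pow_add]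
            _ ≤ 2 ^ (s ^ 13) := by
                refine Nat.pow_le_pow_right (by norm_num) ?_
                have a3 : s ≤ s ^ 12 := by
                  calc s = s ^ 1 := (pow_one s).symm
                    _ ≤ s ^ 12 := Nat.pow_le_pow_right hs1 (by norm_num)
                calc s ^ 12 + s + s ≤ 3 * s ^ 12 := by omega
                  _ ≤ s * s ^ 12 := Nat.mul_le_mul_right _ (by omega)
                  _ = s ^ 13 := by ring
      _ ≤ N := Nat.div_mul_le_self _ _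
  calc A.card * 2 ^ s ≤ (A₂.card + A₃.card + A₅.card + A₆.card) * 2 ^ s := Nat.mul_le_mul_right _ hcov
    _ = A₂.card * 2 ^ s + A₃.card * 2 ^ s + A₅.card * 2 ^ s + A₆.card * 2 ^ s := by ring
    _ ≤ 4 * N := by omega

end Pool.Agent.Helper72.LGI
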