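import Pool.Agent.Helper72.LGI.Typ
import Pool.Agent.Helper72.LG.Main
import Pool.Agent.Helper83.LGS.Code

/-!
# The exceptional set, all groups
-/

set_option autoImplicit false

namespace Pool.Agent.Helper72.LGI

open Subgroup Finset Pool.Agent.Helper72.LG Pool.Agent.Helper72.LGS

/-- the bound for the number of types -/
def TB (M Kb : ℕ) : ℕ := (2 * M * Kb) ^ (8 * (M + Nat.log 2 Kb + 1) ^ 3)

theorem types_TB {M Kb : ℕ} (hM : 1 ≤ M) (hKb : 1 ≤ Kb) : Types M Kb (TB M Kb) :=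
  exists_types M Kb hM hKb

/-- the bound for the small quotient -/
def Kf (e s : ℕ) : ℕ := s ^ (2 * e + Nat.log 2 s)

lemma Kf_le (e : ℕ) : ∃ s₀ : ℕ, 2 ^ (2 * e) ≤ s₀ ∧ ∀ s, s₀ ≤ s → Kf e s ≤ 2 ^ s := by
  obtain ⟨l₀, hl₀⟩ := poly_le 3
  refine ⟨2 ^ (max l₀ (2 * e)), Nat.pow_le_pow_right (by norm_num) (le_max_right _ _), fun s hs => ?_⟩
  have hs0 : s ≠ 0 := by
    have := Nat.one_le_two_pow (n := max l₀ (2 * e))
    omega
  set l := Nat.log 2 s with hl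
  have hl1 : max l₀ (2 * e) ≤ l := (Nat.le_log_iff_pow_le (by norm_num) hs0).2 hs
  have h1 : l₀ ≤ l := (le_max_left _ _).trans hl1
  have h2 : 2 * e ≤ l := (le_max_right _ _).trans hl1
  have h3 := hl₀ l h1
  have h4 : 2 ^ l ≤ s := Nat.pow_log_le_self 2 hs0
  unfold Kf
  calc s ^ (2 * e + l) ≤ (2 ^ (l + 1)) ^ (2 * e + l) :=
        Nat.pow_le_pow_left (Nat.lt_pow_succ_log_self (by norm_num) s).le _
    _ = 2 ^ ((l + 1) * (2 * e + l)) := by rw [← pow_mul]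
    _ ≤ 2 ^ s := by
        refine Nat.pow_le_pow_right (by norm_num) ?_
        calc (l + 1) * (2 * e + l) ≤ (l + 1) * ((l + 1) * (l + 1)) := by
              refine Nat.mul_le_mul_left _ ?_
              nlinarith
          _ = (l + 1) ^ 3 := by ring
          _ ≤ 2 ^ l := h3
          _ ≤ s := h4

lemma NV_le {s Kb : ℕ} (hs : 656 ≤ s) (hKb : Kb ≤ 2 ^ s) :
    NV (TB s Kb) Kb (Nat.log 2 Kb) s + 1 ≤ 2 ^ (s ^ 5) := by
  have hs1 : 1 ≤ s := by omega
  have h2s : s ≤ 2 ^ s := Nat.lt_two_pow_self.le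
  have hlog : Nat.log 2 Kb ≤ s := by
    calc Nat.log 2 Kb ≤ Nat.log 2 (2 ^ s) := Nat.log_mono_right hKb
      _ = s := Nat.log_pow (by norm_num) _
  have e1 : TB s Kb ≤ 2 ^ (648 * s ^ 4) := by
    unfold TB
    have h1 : 2 * s * Kb ≤ 2 ^ (3 * s) := by
      calc 2 * s * Kb ≤ 2 ^ 1 * 2 ^ s * 2 ^ s :=
            Nat.mul_le_mul (Nat.mul_le_mul (le_refl _) h2s) hKb
        _ = 2 ^ (1 + s + s) := by rw [← pow_add, ← pow_add]
        _ ≤ 2 ^ (3 * s) := Nat.pow_le_pow_right (by norm_num) (by omega)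
    have h2 : 8 * (s + Nat.log 2 Kb + 1) ^ 3 ≤ 216 * s ^ 3 := by
      calc 8 * (s + Nat.log 2 Kb + 1) ^ 3 ≤ 8 * (3 * s) ^ 3 := by
            refine Nat.mul_le_mul_left _ (Nat.pow_le_pow_left ?_ 3)
            omega
        _ = 216 * s ^ 3 := by ring
    calc (2 * s * Kb) ^ (8 * (s + Nat.log 2 Kb + 1) ^ 3) ≤
        (2 ^ (3 * s)) ^ (8 * (s + Nat.log 2 Kb + 1) ^ 3) := Nat.pow_le_pow_left h1 _
      _ ≤ (2 ^ (3 * s)) ^ (216 * s ^ 3) := Nat.pow_le_pow_right (by positivity) h2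
      _ = 2 ^ (648 * s ^ 4) := by
          rw [← pow_mul]
          congr 1
          ring
  have e2 : Kb ^ Nat.log 2 Kb ≤ 2 ^ (s ^ 2) := by
    calc Kb ^ Nat.log 2 Kb ≤ (2 ^ s) ^ Nat.log 2 Kb := Nat.pow_le_pow_left hKb _
      _ ≤ (2 ^ s) ^ s := Nat.pow_le_pow_right (by positivity) hlog
      _ = 2 ^ (s ^ 2) := by rw [← pow_mul, sq]
  have e3 : (Kb ^ Nat.log 2 Kb) ^ Nat.log 2 Kb ≤ 2 ^ (s ^ 3) := by
    calc (Kb ^ Nat.log 2 Kb) ^ Nat.log 2 Kb ≤ (2 ^ (s ^ 2)) ^ Nat.log 2 Kb :=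
          Nat.pow_le_pow_left e2 _
      _ ≤ (2 ^ (s ^ 2)) ^ s := Nat.pow_le_pow_right (by positivity) hlog
      _ = 2 ^ (s ^ 3) := by
          rw [← pow_mul]
          congr 1
  have e4 : Kb + 1 ≤ 2 ^ (s + 1) := by
    have := Nat.one_le_two_pow (n := s)
    rw [pow_succ]
    omega
  have e5 : (Kb ^ Nat.log 2 Kb) ^ (s + 1) ≤ 2 ^ (s ^ 2 * (s + 1)) := by
    calc (Kb ^ Nat.log 2 Kb) ^ (s + 1) ≤ (2 ^ (s ^ 2)) ^ (s + 1) := Nat.pow_le_pow_left e2 _
      _ = _ := by rw [← pow_mul]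
  unfold NV
  have e6 : TB s Kb * ((Kb ^ Nat.log 2 Kb) ^ Nat.log 2 Kb * (Kb + 1) *
      (Kb ^ Nat.log 2 Kb) ^ (s + 1) * 2 ^ (s + 1)) ≤ 2 ^ (655 * s ^ 4) := by
    calc TB s Kb * ((Kb ^ Nat.log 2 Kb) ^ Nat.log 2 Kb * (Kb + 1) *
        (Kb ^ Nat.log 2 Kb) ^ (s + 1) * 2 ^ (s + 1)) ≤
        2 ^ (648 * s ^ 4) * (2 ^ (s ^ 3) * 2 ^ (s + 1) * 2 ^ (s ^ 2 * (s + 1)) * 2 ^ (s + 1)) :=
          Nat.mul_le_mul e1 (Nat.mul_le_mul_right _ (Nat.mul_le_mul (Nat.mul_le_mul e3 e4) e5))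
      _ = 2 ^ (648 * s ^ 4 + (s ^ 3 + (s + 1) + s ^ 2 * (s + 1) + (s + 1))) := by
          rw [← pow_add, ← pow_add, ← pow_add, ← pow_add]
      _ ≤ 2 ^ (655 * s ^ 4) := by
          refine Nat.pow_le_pow_right (by norm_num) ?_
          have a1 : s ^ 3 ≤ s ^ 4 := Nat.pow_le_pow_right hs1 (by norm_num)
          have a2 : s ^ 2 ≤ s ^ 4 := Nat.pow_le_pow_right hs1 (by norm_num)
          have a3 : s ≤ s ^ 4 := by
            calc s = s ^ 1 := (pow_one s).symm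
              _ ≤ s ^ 4 := Nat.pow_le_pow_right hs1 (by norm_num)
          calc 648 * s ^ 4 + (s ^ 3 + (s + 1) + s ^ 2 * (s + 1) + (s + 1)) =
              648 * s ^ 4 + 2 * s ^ 3 + s ^ 2 + 2 * s + 2 := by ring
            _ ≤ 655 * s ^ 4 := by omega
  calc TB s Kb * ((Kb ^ Nat.log 2 Kb) ^ Nat.log 2 Kb * (Kb + 1) *
      (Kb ^ Nat.log 2 Kb) ^ (s + 1) * 2 ^ (s + 1)) + 1 ≤ 2 ^ (655 * s ^ 4) + 2 ^ (655 * s ^ 4) :=
        Nat.add_le_add e6 Nat.one_le_two_pow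
    _ = 2 ^ (655 * s ^ 4 + 1) := by ring
    _ ≤ 2 ^ (s ^ 5) := by
        refine Nat.pow_le_pow_right (by norm_num) ?_
        have a4 : 1 ≤ s ^ 4 := Nat.one_le_pow _ _ hs1
        calc 655 * s ^ 4 + 1 ≤ 656 * s ^ 4 := by omega
          _ ≤ s * s ^ 4 := Nat.mul_le_mul_right _ hs
          _ = s ^ 5 := by ring

lemma logV_le {s D N : ℕ} (hN : 1 ≤ N) (hNs : N < 2 ^ ((s + 1) ^ D)) :
    Nat.log 2 (N ^ Nat.log 2 N * N) ≤ 2 * ((s + 1) ^ D) ^ 2 := by
  set Λ := (s + 1) ^ D with hΛ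
  have hΛ1 : 1 ≤ Λ := Nat.one_le_pow _ _ (Nat.succ_pos s)
  have hN0 : N ≠ 0 := by omega
  have h1 : Nat.log 2 N ≤ Λ := by
    have := Nat.log_lt_of_lt_pow hN0 hNs
    omega
  have h2 : N ^ Nat.log 2 N * N ≤ 2 ^ (Λ ^ 2 + Λ) := by
    calc N ^ Nat.log 2 N * N ≤ (2 ^ Λ) ^ Λ * 2 ^ Λ := by
          refine Nat.mul_le_mul ?_ hNs.le
          exact (Nat.pow_le_pow_left hNs.le _).trans (Nat.pow_le_pow_right (by positivity) h1)
      _ = 2 ^ (Λ ^ 2 + Λ) := by
          rw [← pow_mul, ← pow_add]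
          congr 1
          ring
  calc Nat.log 2 (N ^ Nat.log 2 N * N) ≤ Nat.log 2 (2 ^ (Λ ^ 2 + Λ)) := Nat.log_mono_right h2
    _ = Λ ^ 2 + Λ := Nat.log_pow (by norm_num) _
    _ ≤ 2 * Λ ^ 2 := by nlinarith

lemma logN_le {s D N : ℕ} (hN : 1 ≤ N) (hNs : N < 2 ^ ((s + 1) ^ D)) :
    1 + Real.log N ≤ 1 + ((s : ℝ) + 1) ^ D := by
  have h1 : Real.log N ≤ ((s + 1) ^ D : ℕ) * Real.log 2 := by
    rw [← Real.log_pow]
    exact Real.log_le_log (by exact_mod_cast hN) (by exact_mod_cast hNs.le)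
  have h2 : Real.log 2 ≤ 1 := by linarith [Real.log_two_lt_d9]
  have h5 : (((s + 1) ^ D : ℕ) : ℝ) * Real.log 2 ≤ ((s + 1) ^ D : ℕ) * 1 :=
    mul_le_mul_of_nonneg_left h2 (Nat.cast_nonneg _)
  push_cast at h1 h5
  linarith

/-- all but `C N / s ^ e` numbers are typical -/
theorem main_all (e D : ℕ) (hD : 1 ≤ D) : ∃ C : ℝ, 0 ≤ C ∧ ∃ s₀ : ℕ, 1 ≤ s₀ ∧ ∀ s, s₀ ≤ s →
    ∀ N : ℕ, 1 ≤ N → N < 2 ^ ((s + 1) ^ D) → ∀ A : Finset ℕ,
      (∀ n ∈ A, n ∈ Ioc 0 N ∧ ∃ (G : Type) (_ : Group G) (_ : Finite G), Nat.card G = n ∧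
        2 ^ (s ^ 10) < Nat.gcd n (∑ H ∈ nsg G, Nat.card H)) →
      (A.card : ℝ) * (s : ℝ) ^ e ≤ C * N := by
  classical
  obtain ⟨s₁, hs₁, hKf⟩ := Kf_le e
  obtain ⟨s₂, hs₂⟩ := poly_le (e + D + 1)
  obtain ⟨s₃, hs₃⟩ := poly_le (2 * D + 1)
  obtain ⟨C₄, hC₄, h₄⟩ := Pool.GDS.prod_le_rpow
    (k := ((2 ^ ((e + D) * (2 * e + D)) : ℕ) : ℝ)) (δ := 1) (Nat.cast_nonneg _) zero_lt_one
  refine ⟨1 + 2 ^ (D + 1) + C₄ + 1 + 1, by positivity,
    max (max s₁ s₂) (max s₃ (656 + 2 * e + D)),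
    le_trans (by omega) ((le_max_right _ _).trans (le_max_right _ _)), fun s hs N hN hNs A hA => ?_⟩
  have hss₁ : s₁ ≤ s := ((le_max_left _ _).trans (le_max_left _ _)).trans hs
  have hss₂ : s₂ ≤ s := ((le_max_right _ _).trans (le_max_left _ _)).trans hs
  have hss₃ : s₃ ≤ s := ((le_max_left _ _).trans (le_max_right _ _)).trans hs
  have hse : 656 + 2 * e + D ≤ s := ((le_max_right _ _).trans (le_max_right _ _)).trans hs
  have hs1 : 1 ≤ s := by omega
  have hsR : (1 : ℝ) ≤ s := by exact_mod_cast hs1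
  have hs0 : (0 : ℝ) < s := by linarith
  have hNR : (0 : ℝ) ≤ N := Nat.cast_nonneg _
  have h2s : s < 2 ^ s := Nat.lt_two_pow_self
  have hlog := logN_le hN hNs
  have hlog0 : 0 < 1 + Real.log N := by
    have : 0 ≤ Real.log N := Real.log_nonneg (by exact_mod_cast hN)
    linarith
  set w := Nat.log 2 s / (e + D) with hw
  have hw1 : (e + D) * w ≤ Nat.log 2 s := Nat.mul_div_le _ _
  have hw2 : Nat.log 2 s + 1 ≤ (e + D) * (w + 1) := by
    have := Nat.lt_mul_div_succ (Nat.log 2 s) (b := e + D) (by omega)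
    rw [← hw] at this
    omega
  set B := s ^ e with hB
  set z := s ^ (e + D) with hz
  set y := 2 ^ (s ^ 8) with hy
  have hB1 : 1 ≤ B := Nat.one_le_pow _ _ hs1
  have hz1 : 1 ≤ z := Nat.one_le_pow _ _ hs1
  have hBz : B ≤ z := Nat.pow_le_pow_right hs1 (by omega)
  have hzy : z ≤ y := by
    calc z ≤ (2 ^ s) ^ (e + D) := Nat.pow_le_pow_left h2s.le _
      _ = 2 ^ (s * (e + D)) := by rw [← pow_mul]
      _ ≤ 2 ^ (s ^ 8) := by
          refine Nat.pow_le_pow_right (by norm_num) ?_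
          calc s * (e + D) ≤ s * s := Nat.mul_le_mul_left _ (by omega)
            _ = s ^ 2 := by ring
            _ ≤ s ^ 8 := Nat.pow_le_pow_right hs1 (by norm_num)
  set A₂ := A.filter (fun n => ∃ b, B < b ∧ b ^ 2 ∣ n) with hA₂
  set A₃ := A.filter (fun n => ∃ p, z < p ∧ p.Prime ∧ p ∣ n ∧
    ∃ c, c ∣ n ∧ c ≡ 1 [MOD p] ∧ c ≠ 1) with hA₃
  set A₄ := A.filter (fun n => w < (n.primeFactors.filter (fun p => p ≤ z)).card) with hA₄
  set A₅ := A.filter (fun n => s < n.primeFactors.card) with hA₅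
  set A₆ := A \ (A₂ ∪ A₃ ∪ A₄ ∪ A₅) with hA₆
  have hcov : A.card ≤ A₂.card + A₃.card + A₄.card + A₅.card + A₆.card := by
    have h1 : A ⊆ (A₂ ∪ A₃ ∪ A₄ ∪ A₅) ∪ A₆ := by
      intro n hn
      by_cases h : n ∈ A₂ ∪ A₃ ∪ A₄ ∪ A₅
      · exact mem_union_left _ h
      · exact mem_union_right _ (mem_sdiff.2 ⟨hn, h⟩)
    refine (card_le_card h1).trans ?_
    have u1 := card_union_le (A₂ ∪ A₃ ∪ A₄ ∪ A₅) A₆
    have u2 := card_union_le (A₂ ∪ A₃ ∪ A₄) A₅
    have u3 := card_union_le (A₂ ∪ A₃) A₄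
    have u4 := card_union_le A₂ A₃
    omega
  have b2 : (A₂.card : ℝ) * (s : ℝ) ^ e ≤ 1 * N := by
    have := bad2 N B hB1 A₂ (fun n hn => ⟨(hA n (mem_filter.1 hn).1).1, (mem_filter.1 hn).2⟩)
    rw [one_mul]
    rw [hB] at this
    push_cast at this
    exact this
  have b3 : (A₃.card : ℝ) * (s : ℝ) ^ e ≤ 2 ^ (D + 1) * N := by
    have h1 := bad3 N z hz1 A₃ (fun n hn => ⟨(hA n (mem_filter.1 hn).1).1, (mem_filter.1 hn).2⟩)
    rw [hz] at h1
    push_cast at h1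
    have h3 : 1 + Real.log N ≤ 2 ^ (D + 1) * (s : ℝ) ^ D := by
      refine hlog.trans ?_
      have h4 : ((s : ℝ) + 1) ^ D ≤ (2 * s) ^ D := pow_le_pow_left₀ (by positivity) (by linarith) D
      have h5 : (1 : ℝ) ≤ (2 * s) ^ D := one_le_pow₀ (by linarith)
      calc 1 + ((s : ℝ) + 1) ^ D ≤ (2 * s) ^ D + (2 * s) ^ D := add_le_add h5 h4
        _ = _ := by
            rw [mul_pow]
            ring
    have h2 : (A₃.card : ℝ) * (s : ℝ) ^ e * (s : ℝ) ^ D ≤ 2 ^ (D + 1) * N * (s : ℝ) ^ D := by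
      calc (A₃.card : ℝ) * (s : ℝ) ^ e * (s : ℝ) ^ D = (A₃.card : ℝ) * (s : ℝ) ^ (e + D) := by ring
        _ ≤ N * (1 + Real.log N) := h1
        _ ≤ N * (2 ^ (D + 1) * (s : ℝ) ^ D) := mul_le_mul_of_nonneg_left h3 hNR
        _ = _ := by ring
    exact le_of_mul_le_mul_right h2 (by positivity)
  have b4 : (A₄.card : ℝ) * (s : ℝ) ^ e ≤ C₄ * N := by
    have h1 := bad4 N z w (2 ^ ((e + D) * (2 * e + D))) Nat.one_le_two_pow A₄
      (fun n hn => ⟨(hA n (mem_filter.1 hn).1).1, (mem_filter.1 hn).2⟩)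
    have h2 := h₄ z hz1
    rw [Real.rpow_one] at h2
    have h3 : (s : ℝ) ^ (2 * e + D) ≤ (((2 ^ ((e + D) * (2 * e + D)) : ℕ) : ℝ)) ^ (w + 1) := by
      have h4 : s ^ (2 * e + D) ≤ (2 ^ ((e + D) * (2 * e + D))) ^ (w + 1) := by
        calc s ^ (2 * e + D) ≤ (2 ^ (Nat.log 2 s + 1)) ^ (2 * e + D) :=
              Nat.pow_le_pow_left (Nat.lt_pow_succ_log_self (by norm_num) s).le _
          _ ≤ (2 ^ ((e + D) * (w + 1))) ^ (2 * e + D) :=
              Nat.pow_le_pow_left (Nat.pow_le_pow_right (by norm_num) hw2) _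
          _ = _ := by
              rw [← pow_mul, ← pow_mul]
              congr 1
              ring
      exact_mod_cast h4
    have h5 : (A₄.card : ℝ) * (s : ℝ) ^ e * (s : ℝ) ^ (e + D) ≤ C₄ * N * (s : ℝ) ^ (e + D) := by
      calc (A₄.card : ℝ) * (s : ℝ) ^ e * (s : ℝ) ^ (e + D) = (A₄.card : ℝ) * (s : ℝ) ^ (2 * e + D) := by
            ring
        _ ≤ (A₄.card : ℝ) * (((2 ^ ((e + D) * (2 * e + D)) : ℕ) : ℝ)) ^ (w + 1) :=
            mul_le_mul_of_nonneg_left h3 (Nat.cast_nonneg _)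
        _ ≤ N * ∏ p ∈ Pool.GDS.prs z, (1 + (((2 ^ ((e + D) * (2 * e + D)) : ℕ) : ℝ)) / p) := h1
        _ ≤ N * (C₄ * (z : ℝ)) := mul_le_mul_of_nonneg_left h2 hNR
        _ = _ := by
            rw [hz]
            push_cast
            ring
    exact le_of_mul_le_mul_right h5 (by positivity)
  have b5 : (A₅.card : ℝ) * (s : ℝ) ^ e ≤ 1 * N := by
    have h1 := bad5 N s A₅
      (fun n hn => ⟨(hA n (mem_filter.1 hn).1).1, (mem_filter.1 hn).2⟩)
    have h2 : (s : ℝ) ^ e * (1 + Real.log N) ≤ (2 : ℝ) ^ s := by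
      have h3 : s ^ e * (1 + (s + 1) ^ D) ≤ 2 ^ s := by
        have h6 : 1 ≤ (s + 1) ^ D := Nat.one_le_pow _ _ (by omega)
        calc s ^ e * (1 + (s + 1) ^ D) ≤ (s + 1) ^ e * ((s + 1) * (s + 1) ^ D) := by
              refine Nat.mul_le_mul (Nat.pow_le_pow_left (by omega) _) ?_
              nlinarith
          _ = (s + 1) ^ (e + D + 1) := by ring
          _ ≤ 2 ^ s := hs₂ s hss₂
      have h4 : ((s ^ e * (1 + (s + 1) ^ D) : ℕ) : ℝ) ≤ ((2 ^ s : ℕ) : ℝ) := by exact_mod_cast h3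
      push_cast at h4
      exact (mul_le_mul_of_nonneg_left hlog (by positivity)).trans h4
    have h5 : (A₅.card : ℝ) * (s : ℝ) ^ e * (1 + Real.log N) ≤ 1 * N * (1 + Real.log N) := by
      calc (A₅.card : ℝ) * (s : ℝ) ^ e * (1 + Real.log N) =
            (A₅.card : ℝ) * ((s : ℝ) ^ e * (1 + Real.log N)) := by ring
        _ ≤ (A₅.card : ℝ) * (2 : ℝ) ^ s := mul_le_mul_of_nonneg_left h2 (Nat.cast_nonneg _)
        _ ≤ N * (1 + Real.log N) := h1
        _ = _ := by ring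
    exact le_of_mul_le_mul_right h5 hlog0
  have b6 : (A₆.card : ℝ) * (s : ℝ) ^ e ≤ 1 * N := by
    set Kb := Kf e s with hKb
    have hKb1 : 1 ≤ Kb := Nat.one_le_pow _ _ hs1
    have hKb2 : Kb ≤ 2 ^ s := hKf s hss₁
    set ρ := 2 * e + Nat.log 2 s with hρ
    have hρ2 : 2 ^ ρ ≤ s ^ 2 := by
      calc 2 ^ ρ = 2 ^ (2 * e) * 2 ^ Nat.log 2 s := by rw [hρ, pow_add]
        _ ≤ s * s := Nat.mul_le_mul (hs₁.trans hss₁) (Nat.pow_log_le_self 2 (by omega))
        _ = s ^ 2 := by ring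
    have h1 := core_count (M := s) (Kb := Kb) (TB := TB s Kb) (ρ := ρ) (W := s) (B := B) (z := z)
      (y := y) (N := N) (types_TB hs1 hKb1) hs1 hKb1 hB1 hBz hzy A₆ (by
        intro n hn
        rw [hA₆, mem_sdiff] at hn
        obtain ⟨hnA, hnn⟩ := hn
        simp only [mem_union, not_or] at hnn
        obtain ⟨⟨⟨n2, n3⟩, n4⟩, n5⟩ := hnn
        obtain ⟨hnN, G, iG, iF, hG, hgcd⟩ := hA n hnA
        rw [mem_Ioc] at hnN
        have hn0 : n ≠ 0 := by omega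
        have hsqB : ∀ b, B < b → ¬ b ^ 2 ∣ n := fun b hb hbn => n2 (mem_filter.2 ⟨hnA, b, hb, hbn⟩)
        refine ⟨mem_Ioc.2 hnN, hsqB, ?_, ?_, ?_, G, iG, iF, hG, ?_, ?_⟩
        · intro p hp hpp hpn c hc hc1
          by_contra h
          exact n3 (mem_filter.2 ⟨hnA, p, hp, hpp, hpn, c, hc, hc1, h⟩)
        · by_contra h
          exact n5 (mem_filter.2 ⟨hnA, not_le.1 h⟩)
        · have hw4 : (n.primeFactors.filter (fun p => p ≤ z)).card ≤ w := by
            by_contra h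
            exact n4 (mem_filter.2 ⟨hnA, not_le.1 h⟩)
          have h2 := (cof_bounds (s := 2 ^ w + B ^ 2) hn0 hz1 hBz hsqB hw4
            (Nat.le_add_right _ _) (by
              intro b hb hbB
              have h1 : (b ^ 2).divisors.card ≤ b ^ 2 := Nat.card_divisors_le_self _
              have h2 : b ^ 2 ≤ B ^ 2 := Nat.pow_le_pow_left hbB 2
              exact h1.trans (h2.trans (Nat.le_add_left _ _)))).2
          refine h2.trans ?_
          calc B ^ 2 * z ^ w = s ^ (2 * e + (e + D) * w) := by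
                rw [hB, hz, ← pow_mul, ← pow_mul, ← pow_add]
                congr 1
                ring
            _ ≤ Kb := Nat.pow_le_pow_right hs1 (by omega)
        · intro E hE hcard
          refine few_of_relIndex ?_
          rw [Subgroup.relIndex_bot_left, Subgroup.card_top]
          refine hcard.trans_lt ?_
          calc Kb = s ^ ρ := rfl
            _ ≤ (s + 1) ^ ρ := Nat.pow_le_pow_left (by omega) _
            _ < (s + 1) ^ (ρ + 1) := Nat.pow_lt_pow_right (by omega) (by omega)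
        · refine lt_of_le_of_lt ?_ hgcd
          calc B ^ 2 * y ^ s ≤ (2 ^ s) ^ (2 * e) * y ^ s := by
                refine Nat.mul_le_mul_right _ ?_
                rw [hB, ← pow_mul, mul_comm e 2]
                exact Nat.pow_le_pow_left h2s.le _
            _ = 2 ^ (s * (2 * e) + s ^ 9) := by
                rw [hy, ← pow_mul, ← pow_mul, ← pow_add]
                congr 1
            _ ≤ 2 ^ (s ^ 10) := by
                refine Nat.pow_le_pow_right (by norm_num) ?_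
                calc s * (2 * e) + s ^ 9 ≤ s * s + s ^ 9 := by
                      refine Nat.add_le_add_right (Nat.mul_le_mul_left _ (by omega)) _
                  _ = s ^ 2 + s ^ 9 := by ring
                  _ ≤ s ^ 9 + s ^ 9 := Nat.add_le_add_right (Nat.pow_le_pow_right hs1 (by norm_num)) _
                  _ = 2 * s ^ 9 := by ring
                  _ ≤ s * s ^ 9 := Nat.mul_le_mul_right _ (by omega)
                  _ = s ^ 10 := by ring)
    have h2 : A₆.card * s ^ e ≤ N := by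
      calc A₆.card * s ^ e ≤ (N / y * ((NV (TB s Kb) Kb (Nat.log 2 Kb) s + 1) ^ (2 ^ ρ) *
            Nat.log 2 (N ^ Nat.log 2 N * N))) * s ^ e := Nat.mul_le_mul_right _ h1
        _ = N / y * ((NV (TB s Kb) Kb (Nat.log 2 Kb) s + 1) ^ (2 ^ ρ) *
            Nat.log 2 (N ^ Nat.log 2 N * N) * s ^ e) := by ring
        _ ≤ N / y * y := by
            refine Nat.mul_le_mul_left _ ?_
            have h3 : (NV (TB s Kb) Kb (Nat.log 2 Kb) s + 1) ^ (2 ^ ρ) ≤ 2 ^ (s ^ 7) := by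
              calc (NV (TB s Kb) Kb (Nat.log 2 Kb) s + 1) ^ (2 ^ ρ) ≤ (2 ^ (s ^ 5)) ^ (2 ^ ρ) :=
                    Nat.pow_le_pow_left (NV_le (by omega) hKb2) _
                _ ≤ (2 ^ (s ^ 5)) ^ (s ^ 2) := Nat.pow_le_pow_right (by positivity) hρ2
                _ = 2 ^ (s ^ 7) := by
                    rw [← pow_mul]
                    congr 1
                    ring
            have h4 : Nat.log 2 (N ^ Nat.log 2 N * N) ≤ 2 ^ s := by
              refine (logV_le hN hNs).trans ?_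
              calc 2 * ((s + 1) ^ D) ^ 2 ≤ (s + 1) * ((s + 1) ^ D) ^ 2 :=
                    Nat.mul_le_mul_right _ (by omega)
                _ = (s + 1) ^ (2 * D + 1) := by ring
                _ ≤ 2 ^ s := hs₃ s hss₃
            have h5 : s ^ e ≤ 2 ^ (s ^ 2) := by
              calc s ^ e ≤ (2 ^ s) ^ e := Nat.pow_le_pow_left h2s.le _
                _ = 2 ^ (s * e) := by rw [← pow_mul]
                _ ≤ 2 ^ (s ^ 2) := by
                    refine Nat.pow_le_pow_right (by norm_num) ?_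
                    calc s * e ≤ s * s := Nat.mul_le_mul_left _ (by omega)
                      _ = s ^ 2 := by ring
            calc (NV (TB s Kb) Kb (Nat.log 2 Kb) s + 1) ^ (2 ^ ρ) *
                Nat.log 2 (N ^ Nat.log 2 N * N) * s ^ e ≤ 2 ^ (s ^ 7) * 2 ^ s * 2 ^ (s ^ 2) :=
                  Nat.mul_le_mul (Nat.mul_le_mul h3 h4) h5
              _ = 2 ^ (s ^ 7 + s + s ^ 2) := by rw [← pow_add, ← pow_add]
              _ ≤ 2 ^ (s ^ 8) := by
                  refine Nat.pow_le_pow_right (by norm_num) ?_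
                  have a2 : s ^ 2 ≤ s ^ 7 := Nat.pow_le_pow_right hs1 (by norm_num)
                  have a3 : s ≤ s ^ 7 := by
                    calc s = s ^ 1 := (pow_one s).symm
                      _ ≤ s ^ 7 := Nat.pow_le_pow_right hs1 (by norm_num)
                  calc s ^ 7 + s + s ^ 2 ≤ 3 * s ^ 7 := by omega
                    _ ≤ s * s ^ 7 := Nat.mul_le_mul_right _ (by omega)
                    _ = s ^ 8 := by ring
        _ ≤ N := Nat.div_mul_le_self _ _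
    rw [one_mul]
    exact_mod_cast h2
  have hcov' : (A.card : ℝ) ≤ A₂.card + A₃.card + A₄.card + A₅.card + A₆.card := by
    exact_mod_cast hcov
  calc (A.card : ℝ) * (s : ℝ) ^ e ≤
      (A₂.card + A₃.card + A₄.card + A₅.card + A₆.card) * (s : ℝ) ^ e :=
        mul_le_mul_of_nonneg_right hcov' (by positivity)
    _ = A₂.card * (s : ℝ) ^ e + A₃.card * (s : ℝ) ^ e +
        A₄.card * (s : ℝ) ^ e + A₅.card * (s : ℝ) ^ e + A₆.card * (s : ℝ) ^ e := by ring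
    _ ≤ 1 * N + 2 ^ (D + 1) * N + C₄ * N + 1 * N + 1 * N := by
        linarith
    _ = _ := by ring

end Pool.Agent.Helper72.LGI
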