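import Pool.Agent.Helper72.LGI.MainV
import Pool.Agent.Helper72.LGS.Real

/-!
# The real form of the theorem for all groups
-/

set_option autoImplicit false

namespace Pool.Agent.Helper72.LGI

open Subgroup Finset Pool.Agent.Helper72.LG Pool.Agent.Helper72.LGS

open scoped Classical in
/-- `n` is the order of a group with a large greatest common divisor of the order and the sum of
the orders of the normal subgroups -/
def BadA (Z : ℝ) (n : ℕ) : Prop :=
  ∃ (G : Type) (_ : Group G) (_ : Fintype G), Fintype.card G = n ∧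
    Z < (Nat.gcd n (∑ H : {H : Subgroup G // H.Normal}, Nat.card H) : ℝ)

lemma badA_pos {Z : ℝ} {n : ℕ} (h : BadA Z n) : 0 < n := by
  obtain ⟨G, iG, iF, hcard, -⟩ := h
  rw [← hcard]
  exact Fintype.card_pos

lemma badA_finite {x : ℝ} (Z : ℕ → ℝ) : {n : ℕ | (n : ℝ) ≤ x ∧ BadA (Z n) n}.Finite :=
  (Set.finite_Iic ⌊x⌋₊).subset fun _ hn => Nat.le_floor hn.1

theorem real_x {ε : ℝ} (hε : 0 < ε) (A : ℕ) : ∃ C : ℝ, ∀ x : ℝ, 2 ≤ x →
    (Set.ncard {n : ℕ | (n : ℝ) ≤ x ∧ BadA (Real.exp (Real.log x ^ ε)) n} : ℝ) ≤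
      C * x / Real.log x ^ A := by
  classical
  obtain ⟨D₀, hD₀⟩ := exists_nat_ge (10 / ε)
  set D := D₀ + 1 with hD
  have hD1 : 1 ≤ D := by omega
  have hDε : 10 ≤ (D₀ : ℝ) * ε := by
    rw [div_le_iff₀ hε] at hD₀
    exact hD₀
  obtain ⟨C, hC, s₀, hs₀1, hmain⟩ := main_all (D * A) D hD1
  have hl2 : (0 : ℝ) < Real.log 2 := Real.log_pos (by norm_num)
  have hl2' : Real.log 2 < 1 := by linarith [Real.log_two_lt_d9]
  have hl2'' : (0.69 : ℝ) < Real.log 2 := by linarith [Real.log_two_gt_d9]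
  set s₁ := max s₀ 2 with hs₁
  set C₁ : ℝ := (((s₁ + 1) ^ D : ℕ) : ℝ) ^ A with hC₁
  refine ⟨max ((2 ^ D) ^ A * C) C₁, fun x hx => ?_⟩
  set N := ⌊x⌋₊ with hN
  have hx0 : 0 ≤ x := by linarith
  have hNx : (N : ℝ) ≤ x := Nat.floor_le hx0
  have hxN : x < N + 1 := Nat.lt_floor_add_one x
  have hN2 : 2 ≤ N := Nat.le_floor (by exact_mod_cast hx)
  have hlogx : 0 < Real.log x := Real.log_pos (by linarith)
  set Z := Real.exp (Real.log x ^ ε) with hZ
  have hfin : {n : ℕ | (n : ℝ) ≤ x ∧ BadA Z n}.Finite := badA_finite (fun _ => Z)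
  set B := hfin.toFinset with hB
  have hBmem : ∀ n ∈ B, n ∈ Ioc 0 N ∧ BadA Z n := by
    intro n hn
    rw [hB, Set.Finite.mem_toFinset] at hn
    exact ⟨mem_Ioc.2 ⟨badA_pos hn.2, Nat.le_floor hn.1⟩, hn.2⟩
  rw [Set.ncard_eq_toFinset_card _ hfin, ← hB]
  have hBN : (B.card : ℝ) ≤ x := by
    have h1 : B.card ≤ N := by
      calc B.card ≤ (Ioc 0 N).card := card_le_card fun n hn => (hBmem n hn).1
        _ = N := by rw [Nat.card_Ioc, Nat.sub_zero]
    exact (by exact_mod_cast h1 : (B.card : ℝ) ≤ N).trans hNx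
  rw [le_div_iff₀ (by positivity)]
  obtain ⟨s, hsl, hsu⟩ := exists_root (l := Nat.log 2 N) hD1
  have hN0 : N ≠ 0 := by omega
  have hNlow : 2 ^ (s ^ D) ≤ N :=
    (Nat.pow_le_pow_right (by norm_num) hsl).trans (Nat.pow_log_le_self 2 hN0)
  have hNup : N + 1 ≤ 2 ^ ((s + 1) ^ D) := by
    calc N + 1 ≤ 2 ^ (Nat.log 2 N + 1) := Nat.lt_pow_succ_log_self (by norm_num) N
      _ ≤ 2 ^ ((s + 1) ^ D) := Nat.pow_le_pow_right (by norm_num) hsu
  have hlog : Real.log x ≤ (((s + 1) ^ D : ℕ) : ℝ) := by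
    have h1 : x ≤ (2 : ℝ) ^ ((s + 1) ^ D) := by
      have h2 : ((N + 1 : ℕ) : ℝ) ≤ ((2 ^ ((s + 1) ^ D) : ℕ) : ℝ) := by exact_mod_cast hNup
      push_cast at h2
      linarith
    have h2 : Real.log x ≤ Real.log ((2 : ℝ) ^ ((s + 1) ^ D)) := Real.log_le_log (by linarith) h1
    rw [Real.log_pow] at h2
    have h4 : (((s + 1) ^ D : ℕ) : ℝ) * Real.log 2 ≤ ((s + 1) ^ D : ℕ) * 1 :=
      mul_le_mul_of_nonneg_left hl2'.le (Nat.cast_nonneg _)
    linarith
  rcases lt_or_ge s s₁ with hlt | hge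
  · have h1 : Real.log x ^ A ≤ C₁ := by
      rw [hC₁]
      refine pow_le_pow_left₀ hlogx.le (hlog.trans ?_) A
      have : (s + 1) ^ D ≤ (s₁ + 1) ^ D := Nat.pow_le_pow_left (by omega) D
      exact_mod_cast this
    calc (B.card : ℝ) * Real.log x ^ A ≤ x * C₁ :=
          mul_le_mul hBN h1 (by positivity) hx0
      _ = C₁ * x := mul_comm _ _
      _ ≤ max ((2 ^ D) ^ A * C) C₁ * x := mul_le_mul_of_nonneg_right (le_max_right _ _) hx0
  · have hs2 : 2 ≤ s := (le_max_right _ _).trans hge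
    have hss₀ : s₀ ≤ s := (le_max_left _ _).trans hge
    have hsR : (2 : ℝ) ≤ s := by exact_mod_cast hs2
    have hs0 : (0 : ℝ) < s := by linarith
    have hZlow : ((2 ^ (s ^ 10) : ℕ) : ℝ) ≤ Z := by
      have h1 : (s : ℝ) ^ D₀ ≤ Real.log x := by
        have h2 : (2 : ℝ) ^ (s ^ D) ≤ x := by
          have h3 : ((2 ^ (s ^ D) : ℕ) : ℝ) ≤ N := by exact_mod_cast hNlow
          push_cast at h3
          linarith
        have h3 := Real.log_le_log (by positivity) h2
        rw [Real.log_pow] at h3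
        push_cast at h3
        refine le_trans ?_ h3
        rw [hD, pow_succ, mul_assoc]
        refine le_mul_of_one_le_right (by positivity) ?_
        nlinarith
      have h2 : (s : ℝ) ^ 10 * Real.log 2 ≤ Real.log x ^ ε := by
        calc (s : ℝ) ^ 10 * Real.log 2 ≤ (s : ℝ) ^ 10 * 1 :=
              mul_le_mul_of_nonneg_left hl2'.le (by positivity)
          _ = (s : ℝ) ^ (10 : ℝ) := by
              rw [show (10 : ℝ) = ((10 : ℕ) : ℝ) by norm_num, Real.rpow_natCast, mul_one]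
          _ ≤ (s : ℝ) ^ ((D₀ : ℝ) * ε) := Real.rpow_le_rpow_of_exponent_le (by linarith) hDε
          _ = ((s : ℝ) ^ D₀) ^ ε := by rw [Real.rpow_mul hs0.le, Real.rpow_natCast]
          _ ≤ Real.log x ^ ε := Real.rpow_le_rpow (by positivity) h1 hε.le
      calc ((2 ^ (s ^ 10) : ℕ) : ℝ) = Real.exp ((s : ℝ) ^ 10 * Real.log 2) := by
            rw [mul_comm, Real.exp_mul, Real.exp_log (by norm_num)]
            push_cast
            rw [← Real.rpow_natCast]
            push_cast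
            rfl
        _ ≤ Z := Real.exp_le_exp.2 h2
    have h1 := hmain s hss₀ N (by omega) (by omega) B (by
      intro n hn
      obtain ⟨h1, G, iG, iF, hcard, hgcd⟩ := hBmem n hn
      refine ⟨h1, G, iG, inferInstance, by rw [Nat.card_eq_fintype_card, hcard], ?_⟩
      have h2 : ((2 ^ (s ^ 10) : ℕ) : ℝ) <
          (Nat.gcd n (∑ H : {H : Subgroup G // H.Normal}, Nat.card H) : ℝ) :=
        lt_of_le_of_lt hZlow hgcd
      rw [sum_subtype_nat G] at h2
      exact_mod_cast h2)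
    have h2 : Real.log x ^ A ≤ (2 ^ D) ^ A * (s : ℝ) ^ (D * A) := by
      calc Real.log x ^ A ≤ ((((s + 1) ^ D : ℕ) : ℝ)) ^ A := pow_le_pow_left₀ hlogx.le hlog A
        _ ≤ (2 ^ D * (s : ℝ) ^ D) ^ A := by
            refine pow_le_pow_left₀ (Nat.cast_nonneg _) ?_ A
            push_cast
            calc ((s : ℝ) + 1) ^ D ≤ (2 * s) ^ D := pow_le_pow_left₀ (by positivity) (by linarith) D
              _ = _ := by rw [mul_pow]
        _ = _ := by rw [mul_pow, ← pow_mul (s : ℝ)]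
    calc (B.card : ℝ) * Real.log x ^ A ≤ B.card * ((2 ^ D) ^ A * (s : ℝ) ^ (D * A)) :=
          mul_le_mul_of_nonneg_left h2 (Nat.cast_nonneg _)
      _ = (2 ^ D) ^ A * (B.card * (s : ℝ) ^ (D * A)) := by ring
      _ ≤ (2 ^ D) ^ A * (C * N) := mul_le_mul_of_nonneg_left h1 (by positivity)
      _ ≤ (2 ^ D) ^ A * (C * x) := by
          refine mul_le_mul_of_nonneg_left (mul_le_mul_of_nonneg_left hNx hC) (by positivity)
      _ = (2 ^ D) ^ A * C * x := by ring
      _ ≤ max ((2 ^ D) ^ A * C) C₁ * x := mul_le_mul_of_nonneg_right (le_max_left _ _) hx0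

theorem real_n {ε : ℝ} (hε : 0 < ε) (A : ℕ) : ∃ C : ℝ, ∀ x : ℝ, 2 ≤ x →
    (Set.ncard {n : ℕ | (n : ℝ) ≤ x ∧ BadA (Real.exp (Real.log n ^ ε)) n} : ℝ) ≤
      C * x / Real.log x ^ A := by
  classical
  obtain ⟨C, hC⟩ := real_x (ε := ε / 2) (by positivity) A
  set δ : ℝ := 1 / (2 * (A + 1)) with hδ
  have hδ0 : 0 < δ := by positivity
  refine ⟨max (C + (1 / δ) ^ A) (4 ^ A), fun x hx => ?_⟩
  have hx0 : 0 < x := by linarith
  have hx1 : 1 ≤ x := by linarith
  have hlogx : 0 < Real.log x := Real.log_pos (by linarith)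
  have hfin : {n : ℕ | (n : ℝ) ≤ x ∧ BadA (Real.exp (Real.log n ^ ε)) n}.Finite :=
    badA_finite (fun n => Real.exp (Real.log n ^ ε))
  rcases lt_or_ge (Real.log x) 4 with hlt | hge
  · have h1 : (Set.ncard {n : ℕ | (n : ℝ) ≤ x ∧ BadA (Real.exp (Real.log n ^ ε)) n} : ℝ) ≤ x := by
      have h2 : {n : ℕ | (n : ℝ) ≤ x ∧ BadA (Real.exp (Real.log n ^ ε)) n} ⊆
          ((Ioc 0 ⌊x⌋₊ : Finset ℕ) : Set ℕ) := by
        intro n hn
        rw [mem_coe, mem_Ioc]
        exact ⟨badA_pos hn.2, Nat.le_floor hn.1⟩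
      have h3 := Set.ncard_le_ncard h2 (Finset.finite_toSet _)
      rw [Set.ncard_coe_finset, Nat.card_Ioc, Nat.sub_zero] at h3
      exact (by exact_mod_cast h3 : (_ : ℝ) ≤ (⌊x⌋₊ : ℝ)).trans (Nat.floor_le hx0.le)
    rw [le_div_iff₀ (by positivity)]
    calc (Set.ncard {n : ℕ | (n : ℝ) ≤ x ∧ BadA (Real.exp (Real.log n ^ ε)) n} : ℝ) *
        Real.log x ^ A ≤ x * 4 ^ A :=
          mul_le_mul h1 (pow_le_pow_left₀ hlogx.le hlt.le A) (by positivity) hx0.le
      _ = 4 ^ A * x := mul_comm _ _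
      _ ≤ max (C + (1 / δ) ^ A) (4 ^ A) * x := mul_le_mul_of_nonneg_right (le_max_right _ _) hx0.le
  · have hsub : {n : ℕ | (n : ℝ) ≤ x ∧ BadA (Real.exp (Real.log n ^ ε)) n} ⊆
        ((Ioc 0 ⌊Real.sqrt x⌋₊ : Finset ℕ) : Set ℕ) ∪
          {n : ℕ | (n : ℝ) ≤ x ∧ BadA (Real.exp (Real.log x ^ (ε / 2))) n} := by
      intro n hn
      by_cases h : (n : ℝ) ≤ Real.sqrt x
      · left
        rw [mem_coe, mem_Ioc]
        exact ⟨badA_pos hn.2, Nat.le_floor h⟩
      · right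
        push Not at h
        refine ⟨hn.1, ?_⟩
        obtain ⟨G, iG, iF, hcard, hgcd⟩ := hn.2
        refine ⟨G, iG, iF, hcard, lt_of_le_of_lt (Real.exp_le_exp.2 ?_) hgcd⟩
        have h1 : Real.log x / 2 ≤ Real.log n := by
          have h2 := Real.log_le_log (Real.sqrt_pos.2 hx0) h.le
          rw [Real.log_sqrt hx0.le] at h2
          exact h2
        have h2 : Real.log x ^ (1 / 2 : ℝ) ≤ Real.log x / 2 := by
          rw [← Real.sqrt_eq_rpow, Real.sqrt_le_left (by positivity)]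
          nlinarith
        calc Real.log x ^ (ε / 2) = (Real.log x ^ (1 / 2 : ℝ)) ^ ε := by
              rw [← Real.rpow_mul hlogx.le]
              congr 1
              ring
          _ ≤ Real.log n ^ ε := Real.rpow_le_rpow (by positivity) (h2.trans h1) hε.le
    have hfin2 : {n : ℕ | (n : ℝ) ≤ x ∧ BadA (Real.exp (Real.log x ^ (ε / 2))) n}.Finite :=
      badA_finite (fun _ => Real.exp (Real.log x ^ (ε / 2)))
    have h1 := Set.ncard_le_ncard hsub ((Finset.finite_toSet _).union hfin2)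
    have h2 := h1.trans (Set.ncard_union_le _ _)
    rw [Set.ncard_coe_finset, Nat.card_Ioc, Nat.sub_zero] at h2
    have h3 : (Set.ncard {n : ℕ | (n : ℝ) ≤ x ∧ BadA (Real.exp (Real.log n ^ ε)) n} : ℝ) ≤
        Real.sqrt x + C * x / Real.log x ^ A := by
      have h4 : (Set.ncard {n : ℕ | (n : ℝ) ≤ x ∧ BadA (Real.exp (Real.log n ^ ε)) n} : ℝ) ≤
        (⌊Real.sqrt x⌋₊ : ℝ) +
          (Set.ncard {n : ℕ | (n : ℝ) ≤ x ∧ BadA (Real.exp (Real.log x ^ (ε / 2))) n} : ℝ) := by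
        exact_mod_cast h2
      exact h4.trans (add_le_add (Nat.floor_le (Real.sqrt_nonneg _)) (hC x hx))
    have h5 : Real.sqrt x ≤ (1 / δ) ^ A * x / Real.log x ^ A := by
      rw [le_div_iff₀ (by positivity)]
      have h6 : Real.log x ≤ x ^ δ / δ := Real.log_le_rpow_div hx0.le hδ0
      have h7 : Real.log x ^ A ≤ Real.sqrt x * (1 / δ) ^ A := by
        calc Real.log x ^ A ≤ (x ^ δ / δ) ^ A := pow_le_pow_left₀ hlogx.le h6 A
          _ = x ^ (δ * A) * (1 / δ) ^ A := by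
              rw [div_eq_mul_one_div, mul_pow, Real.rpow_mul hx0.le, Real.rpow_natCast]
          _ ≤ Real.sqrt x * (1 / δ) ^ A := by
              refine mul_le_mul_of_nonneg_right ?_ (by positivity)
              rw [Real.sqrt_eq_rpow]
              refine Real.rpow_le_rpow_of_exponent_le hx1 ?_
              rw [hδ, div_mul_eq_mul_div, one_mul, div_le_div_iff₀ (by positivity) (by norm_num)]
              linarith
      calc Real.sqrt x * Real.log x ^ A ≤ Real.sqrt x * (Real.sqrt x * (1 / δ) ^ A) :=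
            mul_le_mul_of_nonneg_left h7 (Real.sqrt_nonneg _)
        _ = (Real.sqrt x * Real.sqrt x) * (1 / δ) ^ A := by ring
        _ = (1 / δ) ^ A * x := by rw [Real.mul_self_sqrt hx0.le, mul_comm]
    calc (Set.ncard {n : ℕ | (n : ℝ) ≤ x ∧ BadA (Real.exp (Real.log n ^ ε)) n} : ℝ) ≤
        (1 / δ) ^ A * x / Real.log x ^ A + C * x / Real.log x ^ A := h3.trans (add_le_add_left h5 _)
      _ = (C + (1 / δ) ^ A) * x / Real.log x ^ A := by ring
      _ ≤ max (C + (1 / δ) ^ A) (4 ^ A) * x / Real.log x ^ A := by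
          refine div_le_div_of_nonneg_right ?_ (by positivity)
          exact mul_le_mul_of_nonneg_right (le_max_left _ _) hx0.le

end Pool.Agent.Helper72.LGI
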