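import Pool.Agent.Helper72.LGI.Count
import Pool.Agent.Helper72.LGI.Part
import Pool.Agent.Helper82.LGI.Interval
import Pool.Agent.Helper72.LGS.Typ

/-!
# The typical numbers, all groups
-/

set_option autoImplicit false

namespace Pool.Agent.Helper72.LGI

open Subgroup Finset Pool.Agent.Helper72.LG Pool.Agent.Helper72.LGS

theorem VV_mem_VSI {X : Type} [Group X] [Finite X] {M Kb ρ : ℕ} (hM : 1 ≤ M) (hX : Nat.card X ≤ Kb)
    (hfew : Few M ρ (⊥ : Subgroup X) ⊤) (S : Finset ℕ) (K : ℕ → Subgroup X) (L : Subgroup X) :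
    VV X S K L ∈ VSI M Kb (Nat.log 2 Kb) (2 ^ ρ) S := by
  classical
  obtain ⟨g, hg⟩ := _root_.LG.exists_gen (A := X) (Nat.log 2 Kb) ⊤ (by
    rw [Subgroup.card_top]
    exact hX.trans_lt (Nat.lt_pow_succ_log_self (by norm_num) Kb))
  obtain ⟨P, hP1, hP2, hP3⟩ := exists_part hM ρ ⊥ ⊤ inferInstance inferInstance bot_le hfew
  set f : Subgroup X → ℕ := fun N => if N ≤ L then
    Nat.card N * ∏ p ∈ S, (p + if N ≤ K p then 1 else 0) else 0 with hf
  refine ⟨P.map (fun c => ∑ N ∈ ival c.1 c.2, f N), by rw [List.length_map]; exact hP1, ?_, ?_⟩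
  · intro x hx
    rw [List.mem_map] at hx
    obtain ⟨c, hc, rfl⟩ := hx
    obtain ⟨c1, c2, c3, c4⟩ := hP2 c hc
    obtain ⟨a, K', b, L', bL, h1⟩ := interval_value S K L g hg c.1 c.2 c3
    refine ⟨c.2 ⧸ c.1.subgroupOf c.2, inferInstance, inferInstance, a, Nat.card c.1, K', b, L', bL,
      ?_, ser_of_chain c3 c4, (Subgroup.card_le_card_group _).trans hX, ?_⟩
    · refine le_trans ?_ ((Subgroup.card_le_card_group c.2).trans hX)
      exact Nat.card_le_card_of_surjective _ (QuotientGroup.mk'_surjective (c.1.subgroupOf c.2))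
    · rw [← h1, sum_filter]
  · rw [← hP3]
    unfold VV
    rw [sum_filter]
    have h2 : ival (⊥ : Subgroup X) ⊤ = nsg X := by
      ext N
      rw [mem_ival, mem_nsg]
      exact ⟨fun h => h.1, fun h => ⟨h, bot_le, le_top⟩⟩
    rw [h2]

/-- the value of a typical number at a prime dividing the sum -/
theorem exists_valueI {M n z q Kb ρ : ℕ} (hM : 1 ≤ M) (hn : n ≠ 0) {G : Type} [Group G] [Finite G]
    (hfew : ∀ (D : Subgroup G) (_ : D.Normal), Nat.card (G ⧸ D) ≤ Kb →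
      Few M ρ (⊥ : Subgroup (G ⧸ D)) ⊤)
    (hG : Nat.card G = n) (hsq : ∀ p, z < p → p.Prime → ¬ p ^ 2 ∣ n)
    (hdiv : ∀ p, z < p → p.Prime → p ∣ n → ∀ c, c ∣ n → c ≡ 1 [MOD p] → c = 1)
    (hq : q ∈ Sz z n) (hqσ : q ∣ ∑ H ∈ nsg G, Nat.card H) (hcof : cof z n ≤ Kb) :
    ∃ v ∈ VSI M Kb (Nat.log 2 Kb) (2 ^ ρ) (Sz z (n / q)), v ≠ 0 ∧ q ∣ v ∧
      v ≤ ∑ H ∈ nsg G, Nat.card H := by
  classical
  obtain ⟨-, h2, h3, -⟩ := remove' hn hq hsq
  have hex : ∀ p : ℕ, ∃ P : Subgroup G, p ∈ Sz z n → Lone P p := by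
    intro p
    by_cases hp : p ∈ Sz z n
    · have hp' := (mem_Sz hn).1 hp
      obtain ⟨P, hP⟩ := exists_lone (G := G) hp'.1 (by rw [hG]; exact hp'.2.1)
        (by rw [hG]; exact hsq p hp'.2.2 hp'.1) (by
          rw [hG]
          exact hdiv p hp'.2.2 hp'.1 hp'.2.1)
      exact ⟨P, fun _ => hP⟩
    · exact ⟨⊥, fun h => absurd h hp⟩
  choose P hP using hex
  set D : Subgroup G := (Sz z n).sup P with hD
  have hDn : D.Normal := by
    rw [hD]
    refine Finset.sup_induction (p := fun H : Subgroup G => H.Normal) ?_ ?_ ?_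
    · infer_instance
    · intro a ha b hb
      infer_instance
    · intro p hp
      exact (hP p hp).normal
  have hDc : Nat.card D = ∏ p ∈ Sz z n, p := card_sup_prod hP
  have hX : Nat.card (G ⧸ D) = cof z n := by
    have e3 := prod_Sz_pos z hn
    have e4 : cof z n * ∏ p ∈ Sz z n, p = Nat.card (G ⧸ D) * ∏ p ∈ Sz z n, p := by
      calc cof z n * ∏ p ∈ Sz z n, p = n := (eq_cof_mul z hn).symm
        _ = Nat.card (G ⧸ D) * Nat.card D := by
            rw [← hG]
            exact Subgroup.card_eq_card_quotient_mul_card_subgroup D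
        _ = _ := by rw [hDc]
    exact (Nat.eq_of_mul_eq_mul_right e3 e4).symm
  have hXle : Nat.card (G ⧸ D) ≤ Kb := by rw [hX]; exact hcof
  have hσ := sigma_eq hP (D := D) hD
  set K : ℕ → Subgroup (G ⧸ D) := fun p => (centralizer (P p : Set G)).map (QuotientGroup.mk' D) with hK
  have hq0 : 0 < q := ((mem_Sz hn).1 hq).1.pos
  refine ⟨VV (G ⧸ D) (Sz z (n / q)) K (K q), ?_, ?_, ?_, ?_⟩
  · exact VV_mem_VSI hM hXle (hfew D hDn hXle) _ _ _
  · have hnq : n / q ≠ 0 := by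
      intro h
      have := (remove' hn hq hsq).1
      rw [h, zero_mul] at this
      exact hn this
    exact (VV_pos (fun p hp => ((mem_Sz hnq).1 hp).1.pos)).ne'
  · refine dvd_VV h2 ?_
    rw [h3, ← hσ]
    exact hqσ
  · rw [hσ, ← h3]
    exact VV_le h2 hq0

/-- the number of the typical numbers with a large greatest common divisor -/
theorem core_count {M Kb TB ρ W B z y N : ℕ} (hT : Types M Kb TB) (hM : 1 ≤ M) (hKb : 1 ≤ Kb)
    (hB : 1 ≤ B) (hBz : B ≤ z) (hzy : z ≤ y) (A : Finset ℕ)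
    (hA : ∀ n ∈ A, n ∈ Ioc 0 N ∧ (∀ b, B < b → ¬ b ^ 2 ∣ n) ∧
      (∀ p, z < p → p.Prime → p ∣ n → ∀ c, c ∣ n → c ≡ 1 [MOD p] → c = 1) ∧
      n.primeFactors.card ≤ W ∧ cof z n ≤ Kb ∧
      ∃ (G : Type) (_ : Group G) (_ : Finite G), Nat.card G = n ∧
        (∀ (D : Subgroup G) (_ : D.Normal), Nat.card (G ⧸ D) ≤ Kb →
          Few M ρ (⊥ : Subgroup (G ⧸ D)) ⊤) ∧
        B ^ 2 * y ^ W < Nat.gcd n (∑ H ∈ nsg G, Nat.card H)) :
    A.card ≤ N / y * ((NV TB Kb (Nat.log 2 Kb) W + 1) ^ (2 ^ ρ) *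
      Nat.log 2 (N ^ Nat.log 2 N * N)) := by
  classical
  have hz1 : 1 ≤ z := hB.trans hBz
  have hy1 : 1 ≤ y := hz1.trans hzy
  set Ms := (Ioc 0 (N / y)).filter (fun m => (Sz z m).card ≤ W) with hMs
  have hcount := count_valuesI (M := M) (Kb := Kb) (TB := TB) (Nat.log 2 Kb) (2 ^ ρ) hT (Gd := A)
    (Ms := Ms) (Sf := Sz z) (W := W) (Vmax := N ^ Nat.log 2 N * N) hKb (by
      intro n hn
      obtain ⟨hnN, hsqB, hdiv, homega, hcof, G, iG, iF, hG, hfew, hgcd⟩ := hA n hn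
      rw [mem_Ioc] at hnN
      have hn0 : n ≠ 0 := by omega
      have hsq : ∀ p, z < p → p.Prime → ¬ p ^ 2 ∣ n := fun p hp _ => hsqB p (lt_of_le_of_lt hBz hp)
      obtain ⟨q, hqp, hyq, hqn, hqσ⟩ : ∃ q, q.Prime ∧ y < q ∧ q ∣ n ∧ q ∣ ∑ H ∈ nsg G, Nat.card H := by
        by_contra hcon
        push Not at hcon
        set g := Nat.gcd n (∑ H ∈ nsg G, Nat.card H) with hg
        have hgn : g ∣ n := Nat.gcd_dvd_left _ _
        have hgσ : g ∣ ∑ H ∈ nsg G, Nat.card H := Nat.gcd_dvd_right _ _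
        have hg2 : 2 ≤ g := by
          have h1 : 1 ≤ B ^ 2 * y ^ W := Nat.mul_pos (Nat.pow_pos hB) (Nat.pow_pos hy1)
          omega
        have h1 : g ≤ B ^ 2 * pm g ^ W := by
          refine le_pm_pow hg2 (fun b hb hbg => hsqB b hb (hbg.trans hgn)) ?_
          exact (card_le_card (Nat.primeFactors_mono hgn hn0)).trans homega
        have h2 : pm g ≤ y := by
          have h3 := pm_mem hg2
          rw [Nat.mem_primeFactors] at h3
          by_contra h4
          push Not at h4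
          exact hcon (pm g) h3.1 h4 (h3.2.1.trans hgn) (h3.2.1.trans hgσ)
        have h3 : g ≤ B ^ 2 * y ^ W := h1.trans (Nat.mul_le_mul_left _ (Nat.pow_le_pow_left h2 _))
        omega
      have hzq : z < q := lt_of_le_of_lt hzy hyq
      have hqS : q ∈ Sz z n := (mem_Sz hn0).2 ⟨hqp, hqn, hzq⟩
      obtain ⟨v, hv1, hv2, hv3, hv4⟩ := exists_valueI hM hn0 hfew hG hsq hdiv hqS hqσ hcof
      obtain ⟨r1, r2, r3, -⟩ := remove' hn0 hqS hsq
      have hm0 : 0 < n / q := by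
        rcases Nat.eq_zero_or_pos (n / q) with h | h
        · rw [h, zero_mul] at r1
          exact absurd r1 hn0
        · exact h
      refine ⟨n / q, ?_, q, r1, hqp, v, hv1, hv2, hv3, ?_⟩
      · rw [hMs, mem_filter, mem_Ioc]
        refine ⟨⟨hm0, ?_⟩, ?_⟩
        · exact (Nat.div_le_div_right hnN.2).trans (Nat.div_le_div_left hyq.le (by omega))
        · have h8 : Sz z (n / q) ⊆ n.primeFactors := by
            refine (Finset.subset_insert q _).trans ?_
            rw [r3]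
            exact filter_subset _ _
          exact (card_le_card h8).trans homega
      · exact hv4.trans (sigma_le (by rw [hG]; exact hnN.2)))
    (by
      intro m hm
      rw [hMs, mem_filter] at hm
      exact hm.2)
  have hMc : Ms.card ≤ N / y := by
    calc Ms.card ≤ (Ioc 0 (N / y)).card := card_le_card (filter_subset _ _)
      _ = _ := by rw [Nat.card_Ioc, Nat.sub_zero]
  exact hcount.trans (Nat.mul_le_mul_right _ hMc)

end Pool.Agent.Helper72.LGI
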